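import Pool.Agent.H44.D2.Germ

/-!
# D2: the algebra of the germs, two functions, dependent functionals

Three copies `(A i, X i)` give the matrix `gm` with `gm X i ∥ A i`; `gm_det4`: `w2 (gm X) A` is the
determinant of the four functionals `A i ⊗ X i`. `gm_same`: the matrices of two samples are
proportional. `own3`, `end3`: the end for the symmetric form `Sym (G^T M)`.
-/

set_option autoImplicit false

namespace Pool.D2G

open Finset Polynomial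

/-- The determinant of two vectors. -/
def w2 (u v : Fin 2 → ℝ) : ℝ := u 0 * v 1 - u 1 * v 0

/-- The determinant of a matrix. -/
def dt (G : Fin 2 → Fin 2 → ℝ) : ℝ := G 0 0 * G 1 1 - G 0 1 * G 1 0

/-- The image of a vector. -/
def ap (G : Fin 2 → Fin 2 → ℝ) (X : Fin 2 → ℝ) (i : Fin 2) : ℝ := G i 0 * X 0 + G i 1 * X 1

/-- The matrix of three copies: `gm X = κ₁ w2 X₁ X A₂ + κ₂ w2 X X₂ A₁`. -/
def gm (A₁ X₁ A₂ X₂ A₃ X₃ : Fin 2 → ℝ) (i j : Fin 2) : ℝ :=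
  if j = 0 then w2 A₃ A₂ * w2 X₁ X₃ * X₂ 1 * A₁ i - w2 A₁ A₃ * w2 X₃ X₂ * X₁ 1 * A₂ i
  else w2 A₁ A₃ * w2 X₃ X₂ * X₁ 0 * A₂ i - w2 A₃ A₂ * w2 X₁ X₃ * X₂ 0 * A₁ i

theorem ap_gm (A₁ X₁ A₂ X₂ A₃ X₃ X : Fin 2 → ℝ) (i : Fin 2) :
    ap (gm A₁ X₁ A₂ X₂ A₃ X₃) X i =
      w2 A₁ A₃ * w2 X₃ X₂ * w2 X₁ X * A₂ i + w2 A₃ A₂ * w2 X₁ X₃ * w2 X X₂ * A₁ i := by
  have e : ¬ ((1 : Fin 2) = 0) := by decide
  unfold ap gm
  rw [if_pos rfl, if_neg e]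
  unfold w2
  ring

theorem gm_one (A₁ X₁ A₂ X₂ A₃ X₃ : Fin 2 → ℝ) (i : Fin 2) :
    ap (gm A₁ X₁ A₂ X₂ A₃ X₃) X₁ i = w2 A₃ A₂ * w2 X₁ X₃ * w2 X₁ X₂ * A₁ i := by
  rw [ap_gm]
  unfold w2
  ring

theorem gm_two (A₁ X₁ A₂ X₂ A₃ X₃ : Fin 2 → ℝ) (i : Fin 2) :
    ap (gm A₁ X₁ A₂ X₂ A₃ X₃) X₂ i = w2 A₁ A₃ * w2 X₃ X₂ * w2 X₁ X₂ * A₂ i := by
  rw [ap_gm]
  unfold w2
  ring

theorem gm_three (A₁ X₁ A₂ X₂ A₃ X₃ : Fin 2 → ℝ) (i : Fin 2) :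
    ap (gm A₁ X₁ A₂ X₂ A₃ X₃) X₃ i = w2 X₃ X₂ * w2 X₁ X₃ * w2 A₁ A₂ * A₃ i := by
  rw [ap_gm]
  unfold w2
  fin_cases i
  · simp only [Fin.zero_eta]
    ring
  · simp only [Fin.mk_one]
    ring

theorem gm_dt (A₁ X₁ A₂ X₂ A₃ X₃ : Fin 2 → ℝ) :
    dt (gm A₁ X₁ A₂ X₂ A₃ X₃) =
      (w2 A₁ A₃ * w2 X₃ X₂) * (w2 A₃ A₂ * w2 X₁ X₃) * (w2 X₁ X₂ * w2 A₁ A₂) := by
  have e : ¬ ((1 : Fin 2) = 0) := by decide
  unfold dt gm
  rw [if_pos rfl, if_pos rfl, if_neg e, if_neg e]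
  unfold w2
  ring

/-- The functional `A ⊗ X`. -/
def rw4 (A X : Fin 2 → ℝ) : Fin 4 → ℝ := ![A 0 * X 0, A 0 * X 1, A 1 * X 0, A 1 * X 1]

/-- **The determinant of four functionals.** -/
theorem gm_det4 (A₁ X₁ A₂ X₂ A₃ X₃ A X : Fin 2 → ℝ) :
    (Matrix.of ![rw4 A₁ X₁, rw4 A₂ X₂, rw4 A₃ X₃, rw4 A X]).det =
      w2 (ap (gm A₁ X₁ A₂ X₂ A₃ X₃) X) A := by
  have e : w2 (ap (gm A₁ X₁ A₂ X₂ A₃ X₃) X) A =
      w2 A₁ A₃ * w2 X₃ X₂ * w2 X₁ X * w2 A₂ A + w2 A₃ A₂ * w2 X₁ X₃ * w2 X X₂ * w2 A₁ A := by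
    unfold w2
    rw [ap_gm, ap_gm]
    unfold w2
    ring
  rw [e]
  unfold rw4 w2
  rw [Matrix.det_succ_row_zero]
  simp only [Fin.sum_univ_succ, Fin.sum_univ_zero, Matrix.det_fin_three, Matrix.submatrix_apply,
    Matrix.of_apply, Fin.succAbove, Matrix.cons_val', Matrix.cons_val_zero, Matrix.cons_val_succ,
    Matrix.cons_val_one]
  simp [Fin.lt_def]
  ring

/-- The bound of the entries. -/
theorem gm_le {A₁ X₁ A₂ X₂ A₃ X₃ : Fin 2 → ℝ} {K : ℝ} (hK : 0 ≤ K) (hA₁ : ∀ i, |A₁ i| ≤ K)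
    (hX₁ : ∀ i, |X₁ i| ≤ K) (hA₂ : ∀ i, |A₂ i| ≤ K) (hX₂ : ∀ i, |X₂ i| ≤ K)
    (hA₃ : ∀ i, |A₃ i| ≤ K) (hX₃ : ∀ i, |X₃ i| ≤ K) (i j : Fin 2) :
    |gm A₁ X₁ A₂ X₂ A₃ X₃ i j| ≤ 8 * K ^ 6 := by
  have w : ∀ u v : Fin 2 → ℝ, (∀ i, |u i| ≤ K) → (∀ i, |v i| ≤ K) → |w2 u v| ≤ 2 * K ^ 2 := by
    intro u v hu hv
    unfold w2
    have h1 : |u 0 * v 1| ≤ K * K := by
      rw [abs_mul]
      exact mul_le_mul (hu 0) (hv 1) (abs_nonneg _) hK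
    have h2 : |u 1 * v 0| ≤ K * K := by
      rw [abs_mul]
      exact mul_le_mul (hu 1) (hv 0) (abs_nonneg _) hK
    have h3 := abs_sub (u 0 * v 1) (u 1 * v 0)
    nlinarith
  have t : ∀ a b x y : ℝ, |a| ≤ 2 * K ^ 2 → |b| ≤ 2 * K ^ 2 → |x| ≤ K → |y| ≤ K →
      |a * b * x * y| ≤ 4 * K ^ 6 := by
    intro a b x y ha hb hx hy
    rw [abs_mul, abs_mul, abs_mul]
    calc |a| * |b| * |x| * |y| ≤ 2 * K ^ 2 * (2 * K ^ 2) * K * K := by gcongr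
      _ = 4 * K ^ 6 := by ring
  unfold gm
  have a1 := w A₃ A₂ hA₃ hA₂
  have a2 := w X₁ X₃ hX₁ hX₃
  have a3 := w A₁ A₃ hA₁ hA₃
  have a4 := w X₃ X₂ hX₃ hX₂
  split_ifs
  · have h1 := t _ _ _ _ a1 a2 (hX₂ 1) (hA₁ i)
    have h2 := t _ _ _ _ a3 a4 (hX₁ 1) (hA₂ i)
    refine (abs_sub _ _).trans ?_
    linarith
  · have h1 := t _ _ _ _ a3 a4 (hX₁ 0) (hA₂ i)
    have h2 := t _ _ _ _ a1 a2 (hX₂ 0) (hA₁ i)
    refine (abs_sub _ _).trans ?_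
    linarith

/-- The factor of a vector which is nearly parallel to `Y`. -/
noncomputable def fac (A Y : Fin 2 → ℝ) : ℝ := (A 0 * Y 0 + A 1 * Y 1) / (Y 0 ^ 2 + Y 1 ^ 2)

/-- **Nearly parallel vectors.** -/
theorem par_of {A Y : Fin 2 → ℝ} {ε ν : ℝ} (hν : 0 < ν) (hY : ∃ i, ν ≤ |Y i|)
    (h : |w2 A Y| ≤ ε) (i : Fin 2) : |A i - fac A Y * Y i| ≤ ε / ν := by
  have hε : 0 ≤ ε := (abs_nonneg _).trans h
  have hs : ν ^ 2 ≤ Y 0 ^ 2 + Y 1 ^ 2 := by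
    obtain ⟨k, hk⟩ := hY
    have h1 : ν ^ 2 ≤ Y k ^ 2 := by
      rw [← sq_abs (Y k)]
      exact pow_le_pow_left₀ hν.le hk 2
    fin_cases k
    · simp only [Fin.zero_eta] at h1
      nlinarith [sq_nonneg (Y 1)]
    · simp only [Fin.mk_one] at h1
      nlinarith [sq_nonneg (Y 0)]
  have hs0 : 0 < Y 0 ^ 2 + Y 1 ^ 2 := lt_of_lt_of_le (by positivity) hs
  -- `|w2 A Y| |Y k| / |Y|^2 ≤ ε / ν`
  have key : ∀ y : ℝ, y ^ 2 ≤ Y 0 ^ 2 + Y 1 ^ 2 → |w2 A Y * y / (Y 0 ^ 2 + Y 1 ^ 2)| ≤ ε / ν := by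
    intro y hy
    rw [abs_div, abs_of_pos hs0, div_le_div_iff₀ hs0 hν, abs_mul]
    have h2 : |y| * ν ≤ Y 0 ^ 2 + Y 1 ^ 2 := by
      have h3 : |y| ^ 2 ≤ Y 0 ^ 2 + Y 1 ^ 2 := by rw [sq_abs]; exact hy
      nlinarith [sq_nonneg (|y| - ν)]
    calc |w2 A Y| * |y| * ν = |w2 A Y| * (|y| * ν) := by ring
      _ ≤ ε * (Y 0 ^ 2 + Y 1 ^ 2) := mul_le_mul h h2 (by positivity) hε
  fin_cases i
  · have e : A 0 - fac A Y * Y 0 = w2 A Y * Y 1 / (Y 0 ^ 2 + Y 1 ^ 2) := by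
      unfold fac w2
      field_simp
      ring
    simp only [Fin.zero_eta]
    rw [e]
    exact key _ (by nlinarith [sq_nonneg (Y 0)])
  · have e : A 1 - fac A Y * Y 1 = w2 A Y * (-Y 0) / (Y 0 ^ 2 + Y 1 ^ 2) := by
      unfold fac w2
      field_simp
      ring
    simp only [Fin.mk_one]
    rw [e]
    exact key _ (by nlinarith [sq_nonneg (Y 1)])

/-- The image of a direction is not small. -/
theorem ap_low {G : Fin 2 → Fin 2 → ℝ} {X : Fin 2 → ℝ} {K μ : ℝ} (hK : 0 < K)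
    (hG : ∀ i j, |G i j| ≤ K) (hX : X 0 = 1) (hμ : μ ≤ |dt G|) : ∃ i, μ / (2 * K) ≤ |ap G X i| := by
  by_contra hcon
  push Not at hcon
  have h0 := hcon 0
  have h1 := hcon 1
  have e : dt G = G 1 1 * ap G X 0 - G 0 1 * ap G X 1 := by
    unfold dt ap
    rw [hX]
    ring
  have hp0 : 0 ≤ |ap G X 0| := abs_nonneg _
  have hp1 : 0 ≤ |ap G X 1| := abs_nonneg _
  have h2 : |dt G| < μ := by
    rw [e]
    have g1 : |G 1 1 * ap G X 0| ≤ K * |ap G X 0| := by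
      rw [abs_mul]
      exact mul_le_mul_of_nonneg_right (hG 1 1) hp0
    have g2 : |G 0 1 * ap G X 1| ≤ K * |ap G X 1| := by
      rw [abs_mul]
      exact mul_le_mul_of_nonneg_right (hG 0 1) hp1
    have g3 := abs_sub (G 1 1 * ap G X 0) (G 0 1 * ap G X 1)
    have g4 : K * |ap G X 0| < K * (μ / (2 * K)) := mul_lt_mul_of_pos_left h0 hK
    have g5 : K * |ap G X 1| < K * (μ / (2 * K)) := mul_lt_mul_of_pos_left h1 hK
    have g6 : K * (μ / (2 * K)) = μ / 2 := by field_simp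
    linarith
  linarith

/-- Two vectors parallel to a third one. -/
theorem w2_trans {A Y Z : Fin 2 → ℝ} {K ε μ : ℝ} (hμ : 0 < μ) (hA : ∃ i, μ ≤ |A i|)
    (hY : ∀ i, |Y i| ≤ K) (hZ : ∀ i, |Z i| ≤ K) (h1 : |w2 A Y| ≤ ε) (h2 : |w2 A Z| ≤ ε) :
    |w2 Y Z| ≤ 2 * K * ε / μ := by
  obtain ⟨i, hi⟩ := hA
  have hε : 0 ≤ ε := (abs_nonneg _).trans h1
  rw [le_div_iff₀ hμ]
  have e : w2 Y Z * A i = w2 A Z * Y i - w2 A Y * Z i := by
    unfold w2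
    fin_cases i
    · simp only [Fin.zero_eta]
      ring
    · simp only [Fin.mk_one]
      ring
  have h3 : |w2 Y Z * A i| ≤ 2 * K * ε := by
    rw [e]
    have g1 : |w2 A Z * Y i| ≤ ε * K := by
      rw [abs_mul]
      exact mul_le_mul h2 (hY i) (abs_nonneg _) hε
    have g2 : |w2 A Y * Z i| ≤ ε * K := by
      rw [abs_mul]
      exact mul_le_mul h1 (hZ i) (abs_nonneg _) hε
    refine (abs_sub _ _).trans ?_
    linarith
  rw [abs_mul] at h3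
  exact (mul_le_mul_of_nonneg_left hi (abs_nonneg _)).trans h3

/-- The quadratic form `w2 (G X) (G' X)`. -/
def qf (G G' : Fin 2 → Fin 2 → ℝ) (i j : Fin 2) : ℝ := G 0 i * G' 1 j - G 1 i * G' 0 j

theorem qf_eval (G G' : Fin 2 → Fin 2 → ℝ) (E : ℝ) :
    (pQ (qf G G')).eval E = w2 (ap G ![1, E]) (ap G' ![1, E]) := by
  rw [pQ_eval]
  unfold qf w2 ap
  simp only [Matrix.cons_val_zero, Matrix.cons_val_one]
  ring

/-- The factor. -/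
noncomputable def cc (G G' : Fin 2 → Fin 2 → ℝ) : ℝ :=
  (G 1 1 * G' 0 0 - G 0 1 * G' 1 0) / dt G

/-- **The matrices of two samples are proportional.** -/
theorem gm_same {G G' : Fin 2 → Fin 2 → ℝ} {K ε μ : ℝ} (hμ : 0 < μ) (hG : ∀ i j, |G i j| ≤ K)
    (hμG : μ ≤ |dt G|) (h0 : |qf G G' 0 0| ≤ ε) (h1 : |qf G G' 0 1 + qf G G' 1 0| ≤ ε)
    (h2 : |qf G G' 1 1| ≤ ε) (i j : Fin 2) : |G' i j - cc G G' * G i j| ≤ 2 * K * ε / μ := by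
  have hε : 0 ≤ ε := (abs_nonneg _).trans h0
  have hd : 0 < |dt G| := lt_of_lt_of_le hμ hμG
  have hd0 : dt G ≠ 0 := abs_pos.mp hd
  have hK : 0 ≤ K := (abs_nonneg _).trans (hG 0 0)
  have main : ∀ x : ℝ, |x * dt G| ≤ 2 * K * ε → |x| ≤ 2 * K * ε / μ := by
    intro x hx
    rw [le_div_iff₀ hμ]
    rw [abs_mul] at hx
    exact (mul_le_mul_of_nonneg_left hμG (abs_nonneg _)).trans hx
  have e : cc G G' * dt G = G 1 1 * G' 0 0 - G 0 1 * G' 1 0 := by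
    unfold cc
    field_simp
  have b : ∀ x y : ℝ, |x| ≤ K → |y| ≤ ε → |x * y| ≤ K * ε := by
    intro x y hx hy
    rw [abs_mul]
    exact mul_le_mul hx hy (abs_nonneg _) hK
  have hKε : 0 ≤ K * ε := mul_nonneg hK hε
  refine main _ ?_
  have e1 : (G' i j - cc G G' * G i j) * dt G =
      G' i j * dt G - G i j * (G 1 1 * G' 0 0 - G 0 1 * G' 1 0) := by
    rw [← e]
    ring
  rw [e1]
  fin_cases i <;> fin_cases j
  · simp only [Fin.zero_eta]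
    have e2 : G' 0 0 * dt G - G 0 0 * (G 1 1 * G' 0 0 - G 0 1 * G' 1 0) =
        G 0 1 * qf G G' 0 0 := by
      unfold dt qf
      ring
    rw [e2]
    linarith [b _ _ (hG 0 1) h0]
  · simp only [Fin.zero_eta, Fin.mk_one]
    have e2 : G' 0 1 * dt G - G 0 1 * (G 1 1 * G' 0 0 - G 0 1 * G' 1 0) =
        G 0 1 * (qf G G' 0 1 + qf G G' 1 0) - G 0 0 * qf G G' 1 1 := by
      unfold dt qf
      ring
    rw [e2]
    refine (abs_sub _ _).trans ?_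
    linarith [b _ _ (hG 0 1) h1, b _ _ (hG 0 0) h2]
  · simp only [Fin.zero_eta, Fin.mk_one]
    have e2 : G' 1 0 * dt G - G 1 0 * (G 1 1 * G' 0 0 - G 0 1 * G' 1 0) =
        G 1 1 * qf G G' 0 0 := by
      unfold dt qf
      ring
    rw [e2]
    linarith [b _ _ (hG 1 1) h0]
  · simp only [Fin.mk_one]
    have e2 : G' 1 1 * dt G - G 1 1 * (G 1 1 * G' 0 0 - G 0 1 * G' 1 0) =
        G 1 1 * (qf G G' 0 1 + qf G G' 1 0) - G 1 0 * qf G G' 1 1 := by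
      unfold dt qf
      ring
    rw [e2]
    refine (abs_sub _ _).trans ?_
    linarith [b _ _ (hG 1 1) h1, b _ _ (hG 1 0) h2]

/-! ### The symmetric form -/

/-- `Sym (G^T M)` -/
noncomputable def sy (G M : Fin 2 → Fin 2 → ℝ) : Fin 3 → ℝ :=
  ![G 0 0 * M 0 0 + G 1 0 * M 1 0,
    ((G 0 0 * M 0 1 + G 1 0 * M 1 1) + (G 0 1 * M 0 0 + G 1 1 * M 1 0)) / 2,
    G 0 1 * M 0 1 + G 1 1 * M 1 1]

/-- The form in the direction `X = (1, E)`. -/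
theorem sy_form (G M : Fin 2 → Fin 2 → ℝ) (E : ℝ) :
    sy G M 0 + 2 * E * sy G M 1 + E ^ 2 * sy G M 2 =
      ap G ![1, E] 0 * ap M ![1, E] 0 + ap G ![1, E] 1 * ap M ![1, E] 1 := by
  unfold sy ap
  simp only [Matrix.cons_val_zero, Matrix.cons_val_one, Matrix.cons_val]
  ring

/-- A functional which is nearly `a G X`. -/
theorem sy_near {G M : Fin 2 → Fin 2 → ℝ} {A : Fin 2 → ℝ} {E a K ε : ℝ} (hK : 1 ≤ K)
    (hM : ∀ i j, |M i j| ≤ K) (hE : |E| ≤ K) (hε : 0 ≤ ε)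
    (hA : ∀ i, |A i - a * ap G ![1, E] i| ≤ ε) :
    |(A 0 * (M 0 0 + E * M 0 1) + A 1 * (M 1 0 + E * M 1 1)) -
      a * (sy G M 0 + 2 * E * sy G M 1 + E ^ 2 * sy G M 2)| ≤ 4 * K ^ 2 * ε := by
  have hK0 : 0 < K := by linarith
  have m : ∀ i, |M i 0 + E * M i 1| ≤ 2 * K ^ 2 := by
    intro i
    have g1 : |E * M i 1| ≤ K * K := by
      rw [abs_mul]
      exact mul_le_mul hE (hM i 1) (abs_nonneg _) hK0.le
    have g2 := abs_add_le (M i 0) (E * M i 1)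
    have g3 := hM i 0
    nlinarith
  have e : (A 0 * (M 0 0 + E * M 0 1) + A 1 * (M 1 0 + E * M 1 1)) -
      a * (sy G M 0 + 2 * E * sy G M 1 + E ^ 2 * sy G M 2) =
      (A 0 - a * ap G ![1, E] 0) * (M 0 0 + E * M 0 1) +
      (A 1 - a * ap G ![1, E] 1) * (M 1 0 + E * M 1 1) := by
    rw [sy_form]
    unfold ap
    simp only [Matrix.cons_val_zero, Matrix.cons_val_one]
    ring
  rw [e]
  have g1 : |(A 0 - a * ap G ![1, E] 0) * (M 0 0 + E * M 0 1)| ≤ ε * (2 * K ^ 2) := by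
    rw [abs_mul]
    exact mul_le_mul (hA 0) (m 0) (abs_nonneg _) hε
  have g2 : |(A 1 - a * ap G ![1, E] 1) * (M 1 0 + E * M 1 1)| ≤ ε * (2 * K ^ 2) := by
    rw [abs_mul]
    exact mul_le_mul (hA 1) (m 1) (abs_nonneg _) hε
  refine (abs_add_le _ _).trans ?_
  linarith

/-- The rows of three copies. -/
def rw3 (a E : ℝ) : Fin 3 → ℝ := ![a, a * (2 * E), a * E ^ 2]

theorem det_rw3 (a₁ E₁ a₂ E₂ a₃ E₃ : ℝ) :
    (Matrix.of ![rw3 a₁ E₁, rw3 a₂ E₂, rw3 a₃ E₃]).det =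
      2 * (a₁ * a₂ * a₃) * ((E₂ - E₁) * (E₃ - E₁) * (E₃ - E₂)) := by
  rw [Matrix.det_fin_three]
  simp only [Matrix.of_apply, rw3, Matrix.cons_val_zero, Matrix.cons_val_one, Matrix.cons_val]
  ring

/-- The germs of the symmetric form. `N = G^T (M' - M)`. -/
structure G3 (K ε τ E : ℝ) (p : Fin 2 → ℝ) (U U' M₀ M₀' : Fin 3 → ℝ)
    (M₁ M₁' : Fin 3 → Fin 2 → ℝ) (N : Fin 2 → Fin 2 → ℝ) : Prop where
  hK : 1 ≤ K
  hE : |E| ≤ K
  hp : ∀ j, |p j| ≤ K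
  hτ : |τ| ≤ K
  h0 : ∀ i, |M₀' i - M₀ i| ≤ ε
  h1 : ∀ i j, |M₁' i j - M₁ i j| ≤ ε
  c0 : |M₁' 0 0| ≤ ε
  c1 : |M₁' 0 1 + 2 * M₁' 1 0| ≤ ε
  c2 : |2 * M₁' 1 1 + M₁' 2 0| ≤ ε
  c3 : |M₁' 2 1| ≤ ε
  hU : ∀ i, |U i - M₀ i - ∑ j, M₁ i j * p j| ≤ ε
  hU' : ∀ i, |U' i - M₀' i - ∑ j, M₁' i j * (p j + τ * ![1, E] j)| ≤ ε
  n0 : |U' 0 - U 0 - N 0 0| ≤ ε
  n1 : |U' 1 - U 1 - (N 0 1 + N 1 0) / 2| ≤ ε
  n2 : |U' 2 - U 2 - N 1 1| ≤ ε
  nx : ∀ i, |N i 0 + N i 1 * E| ≤ ε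

section
variable {K ε τ E : ℝ} {p : Fin 2 → ℝ} {U U' M₀ M₀' : Fin 3 → ℝ} {M₁ M₁' : Fin 3 → Fin 2 → ℝ}
  {N : Fin 2 → Fin 2 → ℝ}

theorem G3.eps (D : G3 K ε τ E p U U' M₀ M₀' M₁ M₁' N) : 0 ≤ ε := (abs_nonneg _).trans D.c0

theorem G3.dif (D : G3 K ε τ E p U U' M₀ M₀' M₁ M₁' N) (i : Fin 3) :
    |U' i - U i - τ * (M₁' i 0 + M₁' i 1 * E)| ≤ 5 * K * ε := by
  have hε := D.eps
  have hK := D.hK
  have d : U' i - U i = τ * (M₁' i 0 + M₁' i 1 * E) + (M₀' i - M₀ i) +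
      ((M₁' i 0 - M₁ i 0) * p 0 + (M₁' i 1 - M₁ i 1) * p 1) +
      ((U' i - M₀' i - ∑ j, M₁' i j * (p j + τ * ![1, E] j)) -
        (U i - M₀ i - ∑ j, M₁ i j * p j)) := by
    simp only [Fin.sum_univ_two, Matrix.cons_val_zero, Matrix.cons_val_one]
    ring
  have a1 := abs_le.mp (D.h0 i)
  have a2 := abs_le.mp (D.hU i)
  have a3 := abs_le.mp (D.hU' i)
  have a4 : |(M₁' i 0 - M₁ i 0) * p 0| ≤ ε * K := by
    rw [abs_mul]
    exact mul_le_mul (D.h1 i 0) (D.hp 0) (abs_nonneg _) hε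
  have a5 : |(M₁' i 1 - M₁ i 1) * p 1| ≤ ε * K := by
    rw [abs_mul]
    exact mul_le_mul (D.h1 i 1) (D.hp 1) (abs_nonneg _) hε
  have a6 := abs_le.mp a4
  have a7 := abs_le.mp a5
  have a9 : 3 * ε ≤ 3 * K * ε := by nlinarith
  rw [abs_le]
  constructor <;> linarith

/-- The entries of `N`, up to small errors: `N 1 1 = - 2 τ y`, `N 0 1 = 2 τ x`. -/
theorem G3.ent (D : G3 K ε τ E p U U' M₀ M₀' M₁ M₁' N) :
    |N 1 1 + 2 * τ * M₁' 1 1| ≤ 8 * K ^ 2 * ε ∧ |N 0 1 - 2 * τ * M₁' 1 0| ≤ 21 * K ^ 3 * ε := by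
  have hε := D.eps
  have hK := D.hK
  have hK0 : 0 < K := by linarith
  have hKε : ε ≤ K ^ 2 * ε := by
    have := one_le_pow₀ hK (n := 2)
    nlinarith
  have hK1 : K * ε ≤ K ^ 2 * ε := mul_le_mul_of_nonneg_right (by nlinarith) hε
  have hK2 : K ^ 2 * ε ≤ K ^ 3 * ε :=
    mul_le_mul_of_nonneg_right (pow_le_pow_right₀ hK (by norm_num)) hε
  have a1 : |N 1 1 + 2 * τ * M₁' 1 1| ≤ 8 * K ^ 2 * ε := by
    have g1 := abs_le.mp (D.dif 2)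
    have g2 := abs_le.mp D.n2
    have g3 : |τ * (2 * M₁' 1 1 + M₁' 2 0)| ≤ K * ε := by
      rw [abs_mul]
      exact mul_le_mul D.hτ D.c2 (abs_nonneg _) hK0.le
    have g4 : |τ * (M₁' 2 1 * E)| ≤ K * (ε * K) := by
      rw [abs_mul, abs_mul]
      exact mul_le_mul D.hτ (mul_le_mul D.c3 D.hE (abs_nonneg _) hε) (by positivity) hK0.le
    have g5 := abs_le.mp g3
    have g6 := abs_le.mp g4
    have g7 : τ * (M₁' 2 0 + M₁' 2 1 * E) = τ * (2 * M₁' 1 1 + M₁' 2 0) - 2 * τ * M₁' 1 1 +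
        τ * (M₁' 2 1 * E) := by ring
    rw [g7] at g1
    have g8 : K * (ε * K) = K ^ 2 * ε := by ring
    rw [g8] at g6
    rw [abs_le]
    constructor <;> linarith
  refine ⟨a1, ?_⟩
  have g1 := abs_le.mp (D.dif 1)
  have g2 := abs_le.mp D.n1
  have g3 := abs_le.mp (D.nx 1)
  have g4 : |(N 1 1 + 2 * τ * M₁' 1 1) * E| ≤ 8 * K ^ 2 * ε * K := by
    rw [abs_mul]
    exact mul_le_mul a1 D.hE (abs_nonneg _) (by positivity)
  have g5 := abs_le.mp g4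
  have g6 : 8 * K ^ 2 * ε * K = 8 * K ^ 3 * ε := by ring
  rw [g6] at g5
  have g7 : τ * (M₁' 1 0 + M₁' 1 1 * E) = τ * M₁' 1 0 + τ * M₁' 1 1 * E := by ring
  rw [g7] at g1
  have g8 : (N 1 1 + 2 * τ * M₁' 1 1) * E = N 1 1 * E + 2 * (τ * M₁' 1 1 * E) := by ring
  rw [g8] at g5
  rw [abs_le]
  constructor <;> linarith

/-- **The own direction**: `x = y E` for the two free numbers of the germ. -/
theorem own3 {μ a θ : ℝ} (D : G3 K ε τ E p U U' M₀ M₀' M₁ M₁' N) (hμ : 0 < μ)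
    (hτμ : μ ≤ |τ|) (ha : |a| ≤ K) (haμ : μ ≤ |a|)
    (hα : |θ + a * (M₁ 0 1 + 2 * E * M₁ 1 1 + E ^ 2 * M₁ 2 1)| ≤ ε)
    (hβ : |a * (N 0 1 + E * N 1 1) + 2 * τ * θ| ≤ ε) :
    |M₁' 1 0 - M₁' 1 1 * E| ≤ 10 * K ^ 4 * ε / μ ^ 2 := by
  have hε := D.eps
  have hK := D.hK
  have hK0 : 0 < K := by linarith
  obtain ⟨b1, b2⟩ := D.ent
  -- the relation `α`
  have c1 : |θ - 2 * a * (M₁' 1 0 - M₁' 1 1 * E)| ≤ 8 * K ^ 3 * ε := by
    have g1 : |(M₁ 0 1 + 2 * E * M₁ 1 1 + E ^ 2 * M₁ 2 1) + 2 * (M₁' 1 0 - M₁' 1 1 * E)| ≤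
        7 * K ^ 2 * ε := by
      have h1 := abs_le.mp (D.h1 0 1)
      have h2 := abs_le.mp D.c1
      have h3 : |2 * E * (M₁' 1 1 - M₁ 1 1)| ≤ 2 * K * ε := by
        rw [abs_mul, abs_mul, abs_two]
        exact mul_le_mul (by linarith [D.hE]) (D.h1 1 1) (abs_nonneg _) (by positivity)
      have h4 : |M₁ 2 1| ≤ 2 * ε := by
        have h5 := abs_le.mp (D.h1 2 1)
        have h6 := abs_le.mp D.c3
        rw [abs_le]
        constructor <;> linarith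
      have h5 : |E ^ 2 * M₁ 2 1| ≤ K ^ 2 * (2 * ε) := by
        rw [abs_mul, abs_pow]
        exact mul_le_mul (pow_le_pow_left₀ (abs_nonneg _) D.hE 2) h4 (abs_nonneg _) (by positivity)
      have h6 := abs_le.mp h3
      have h7 := abs_le.mp h5
      have h8 : 2 * ε + 2 * K * ε + K ^ 2 * (2 * ε) ≤ 7 * K ^ 2 * ε := by
        calc 2 * ε + 2 * K * ε + K ^ 2 * (2 * ε) = (2 + 2 * K + 2 * K ^ 2) * ε := by ring
          _ ≤ _ := mul_le_mul_of_nonneg_right (by nlinarith) hε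
      have h9 : (M₁ 0 1 + 2 * E * M₁ 1 1 + E ^ 2 * M₁ 2 1) + 2 * (M₁' 1 0 - M₁' 1 1 * E) =
          (M₁' 0 1 + 2 * M₁' 1 0) - (M₁' 0 1 - M₁ 0 1) - 2 * E * (M₁' 1 1 - M₁ 1 1) +
          E ^ 2 * M₁ 2 1 := by ring
      rw [h9, abs_le]
      constructor <;> linarith
    have g2 : |a * ((M₁ 0 1 + 2 * E * M₁ 1 1 + E ^ 2 * M₁ 2 1) + 2 * (M₁' 1 0 - M₁' 1 1 * E))| ≤
        K * (7 * K ^ 2 * ε) := by
      rw [abs_mul]
      exact mul_le_mul ha g1 (abs_nonneg _) hK0.le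
    have g3 := abs_le.mp g2
    have g4 := abs_le.mp hα
    have g5 : ε + K * (7 * K ^ 2 * ε) ≤ 8 * K ^ 3 * ε := by
      have := one_le_pow₀ hK (n := 3)
      calc ε + K * (7 * K ^ 2 * ε) = (1 + 7 * K ^ 3) * ε := by ring
        _ ≤ _ := mul_le_mul_of_nonneg_right (by linarith) hε
    have g6 : a * ((M₁ 0 1 + 2 * E * M₁ 1 1 + E ^ 2 * M₁ 2 1) + 2 * (M₁' 1 0 - M₁' 1 1 * E)) =
        a * (M₁ 0 1 + 2 * E * M₁ 1 1 + E ^ 2 * M₁ 2 1) + 2 * a * (M₁' 1 0 - M₁' 1 1 * E) := by ring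
    rw [g6] at g3
    rw [abs_le]
    constructor <;> linarith
  -- the relation `β`
  have c2 : |2 * τ * (θ - 2 * a * (M₁' 1 0 - M₁' 1 1 * E))| ≤ 2 * K * (8 * K ^ 3 * ε) := by
    rw [abs_mul, abs_mul, abs_two]
    exact mul_le_mul (by linarith [D.hτ]) c1 (abs_nonneg _) (by positivity)
  have c3 : |a * (N 0 1 - 2 * τ * M₁' 1 0)| ≤ K * (21 * K ^ 3 * ε) := by
    rw [abs_mul]
    exact mul_le_mul ha b2 (abs_nonneg _) hK0.le
  have c4 : |a * (E * (N 1 1 + 2 * τ * M₁' 1 1))| ≤ K * (K * (8 * K ^ 2 * ε)) := by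
    rw [abs_mul, abs_mul]
    exact mul_le_mul ha (mul_le_mul D.hE b1 (abs_nonneg _) hK0.le) (by positivity) hK0.le
  have e1 : 6 * (a * τ * (M₁' 1 0 - M₁' 1 1 * E)) = (a * (N 0 1 + E * N 1 1) + 2 * τ * θ) -
      2 * τ * (θ - 2 * a * (M₁' 1 0 - M₁' 1 1 * E)) - a * (N 0 1 - 2 * τ * M₁' 1 0) -
      a * (E * (N 1 1 + 2 * τ * M₁' 1 1)) := by ring
  have d1 := abs_le.mp hβ
  have d2 := abs_le.mp c2
  have d3 := abs_le.mp c3
  have d4 := abs_le.mp c4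
  have e2 : ε + 2 * K * (8 * K ^ 3 * ε) + K * (21 * K ^ 3 * ε) + K * (K * (8 * K ^ 2 * ε)) ≤
      60 * K ^ 4 * ε := by
    have := one_le_pow₀ hK (n := 4)
    calc ε + 2 * K * (8 * K ^ 3 * ε) + K * (21 * K ^ 3 * ε) + K * (K * (8 * K ^ 2 * ε)) =
        (1 + 45 * K ^ 4) * ε := by ring
      _ ≤ _ := mul_le_mul_of_nonneg_right (by linarith) hε
  have e3 : |6 * (a * τ * (M₁' 1 0 - M₁' 1 1 * E))| ≤ 60 * K ^ 4 * ε := by
    rw [e1, abs_le]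
    constructor <;> linarith
  rw [le_div_iff₀ (by positivity)]
  rw [abs_mul, abs_mul, abs_mul, abs_of_pos (by norm_num : (0 : ℝ) < 6)] at e3
  have f1 : μ ^ 2 ≤ |a| * |τ| := by
    rw [sq]
    exact mul_le_mul haμ hτμ hμ.le (abs_nonneg _)
  have f2 := mul_le_mul_of_nonneg_right f1 (abs_nonneg (M₁' 1 0 - M₁' 1 1 * E))
  linarith

/-- The difference `N` is small. -/
theorem G3.small (D : G3 K ε τ E p U U' M₀ M₀' M₁ M₁' N) (hx : |M₁' 1 0| ≤ ε)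
    (hy : |M₁' 1 1| ≤ ε) (i j : Fin 2) : |N i j| ≤ 40 * K ^ 3 * ε := by
  have hε := D.eps
  have hK := D.hK
  have hK0 : 0 < K := by linarith
  obtain ⟨b1, b2⟩ := D.ent
  have hK1 : K * ε ≤ K ^ 3 * ε :=
    mul_le_mul_of_nonneg_right (by nlinarith [one_le_pow₀ hK (n := 2)]) hε
  have hK2 : K ^ 2 * ε ≤ K ^ 3 * ε :=
    mul_le_mul_of_nonneg_right (pow_le_pow_right₀ hK (by norm_num)) hε
  have hK3 : ε ≤ K ^ 3 * ε := by
    have := one_le_pow₀ hK (n := 3)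
    nlinarith
  have t : ∀ z : ℝ, |z| ≤ ε → |2 * τ * z| ≤ 2 * K * ε := by
    intro z hz
    rw [abs_mul, abs_mul, abs_two]
    exact mul_le_mul (by linarith [D.hτ]) hz (abs_nonneg _) (by positivity)
  have n11 : |N 1 1| ≤ 10 * K ^ 2 * ε := by
    have g1 := abs_le.mp b1
    have g2 := abs_le.mp (t _ hy)
    have g3 : K * ε ≤ K ^ 2 * ε := mul_le_mul_of_nonneg_right (by nlinarith) hε
    rw [abs_le]
    constructor <;> linarith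
  have n01 : |N 0 1| ≤ 23 * K ^ 3 * ε := by
    have g1 := abs_le.mp b2
    have g2 := abs_le.mp (t _ hx)
    rw [abs_le]
    constructor <;> linarith
  have n10 : |N 1 0| ≤ 11 * K ^ 3 * ε := by
    have g1 := abs_le.mp (D.nx 1)
    have g2 : |N 1 1 * E| ≤ 10 * K ^ 2 * ε * K := by
      rw [abs_mul]
      exact mul_le_mul n11 D.hE (abs_nonneg _) (by positivity)
    have g3 := abs_le.mp g2
    have g4 : 10 * K ^ 2 * ε * K = 10 * K ^ 3 * ε := by ring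
    rw [g4] at g3
    rw [abs_le]
    constructor <;> linarith
  have n00 : |N 0 0| ≤ 40 * K ^ 3 * ε := by
    have g1 := abs_le.mp (D.dif 0)
    have g2 := abs_le.mp D.n0
    have g3 : |M₁' 0 1| ≤ 3 * ε := by
      have g4 := abs_le.mp D.c1
      have g5 := abs_le.mp hx
      rw [abs_le]
      constructor <;> linarith
    have g4 : |M₁' 0 0 + M₁' 0 1 * E| ≤ 4 * K * ε := by
      have h1 : |M₁' 0 1 * E| ≤ 3 * ε * K := by
        rw [abs_mul]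
        exact mul_le_mul g3 D.hE (abs_nonneg _) (by positivity)
      have h2 := abs_add_le (M₁' 0 0) (M₁' 0 1 * E)
      have h3 := D.c0
      have h4 : ε ≤ K * ε := by nlinarith
      linarith
    have g5 : |τ * (M₁' 0 0 + M₁' 0 1 * E)| ≤ K * (4 * K * ε) := by
      rw [abs_mul]
      exact mul_le_mul D.hτ g4 (abs_nonneg _) hK0.le
    have g6 := abs_le.mp g5
    have g7 : K * (4 * K * ε) = 4 * (K ^ 2 * ε) := by ring
    rw [g7] at g6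
    rw [abs_le]
    constructor <;> linarith
  have hz : 0 ≤ K ^ 3 * ε := by positivity
  fin_cases i <;> fin_cases j
  · exact n00
  · exact n01.trans (by linarith)
  · exact n10.trans (by linarith)
  · refine n11.trans ?_
    linarith

end

/-- **The slopes are constant.** `N = G^T (M' - M)`. -/
theorem end3 {G M M' N : Fin 2 → Fin 2 → ℝ} {K μ δ : ℝ} (hK : 0 ≤ K) (hμ : 0 < μ)
    (hG : ∀ i j, |G i j| ≤ K) (hμG : μ ≤ |dt G|)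
    (hN : ∀ i j, N i j = G 0 i * (M' 0 j - M 0 j) + G 1 i * (M' 1 j - M 1 j))
    (h : ∀ i j, |N i j| ≤ δ) (i j : Fin 2) : |M' i j - M i j| ≤ 2 * K * δ / μ := by
  have hδ : 0 ≤ δ := (abs_nonneg _).trans (h 0 0)
  rw [le_div_iff₀ hμ]
  have b : ∀ x y : ℝ, |x| ≤ K → |y| ≤ δ → |x * y| ≤ K * δ := by
    intro x y hx hy
    rw [abs_mul]
    exact mul_le_mul hx hy (abs_nonneg _) hK
  have main : ∀ x : ℝ, |x * dt G| ≤ 2 * K * δ → |x| * μ ≤ 2 * K * δ := by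
    intro x hx
    rw [abs_mul] at hx
    exact (mul_le_mul_of_nonneg_left hμG (abs_nonneg _)).trans hx
  refine main _ ?_
  fin_cases i
  · simp only [Fin.zero_eta]
    have e : (M' 0 j - M 0 j) * dt G = G 1 1 * N 0 j - G 1 0 * N 1 j := by
      rw [hN, hN]
      unfold dt
      ring
    rw [e]
    refine (abs_sub _ _).trans ?_
    linarith [b _ _ (hG 1 1) (h 0 j), b _ _ (hG 1 0) (h 1 j)]
  · simp only [Fin.mk_one]
    have e : (M' 1 j - M 1 j) * dt G = G 0 0 * N 1 j - G 0 1 * N 0 j := by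
      rw [hN, hN]
      unfold dt
      ring
    rw [e]
    refine (abs_sub _ _).trans ?_
    linarith [b _ _ (hG 0 0) (h 1 j), b _ _ (hG 0 1) (h 0 j)]

/-- The relation `α` of the symmetric form from the relation of the slopes, and the difference of
the symmetric forms. -/
theorem sy_dif (G M M' : Fin 2 → Fin 2 → ℝ) :
    sy G M' 0 - sy G M 0 = G 0 0 * (M' 0 0 - M 0 0) + G 1 0 * (M' 1 0 - M 1 0) ∧
    sy G M' 1 - sy G M 1 = ((G 0 0 * (M' 0 1 - M 0 1) + G 1 0 * (M' 1 1 - M 1 1)) +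
      (G 0 1 * (M' 0 0 - M 0 0) + G 1 1 * (M' 1 0 - M 1 0))) / 2 ∧
    sy G M' 2 - sy G M 2 = G 0 1 * (M' 0 1 - M 0 1) + G 1 1 * (M' 1 1 - M 1 1) := by
  refine ⟨?_, ?_, ?_⟩
  · unfold sy
    simp only [Matrix.cons_val_zero]
    ring
  · unfold sy
    simp only [Matrix.cons_val_one, Matrix.cons_val_zero]
    ring
  · unfold sy
    simp only [Matrix.cons_val]
    ring

end Pool.D2G
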