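import Pool.Agent.H88.TIE.L1A
import Pool.Agent.H88.TIE.Tup

/-!
# Closed coefficients from Lemma L1

`best_glue`: for each value of the common variable one reference which is at least as good as the
average. `clo_law`: under the hypotheses of L1 (with contexts) the coefficients are, outside a small
probability, polynomials of the line of degree at most `n` in the time.
-/

set_option autoImplicit false

namespace Pool.D2L

open Finset Real
open Pool.Agent.H49.Ent Pool.Agent.H32.Dense Pool.STK Pool.K2S Pool.KAF Pool.M5 Pool.SLO Pool.BFL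
open Pool.MIC Pool.TIE

section glue

variable {Ω₁ Ω₂ T : Type} [Fintype Ω₁] [Fintype Ω₂] {p₁ : Ω₁ → ℝ} {p₂ : Ω₂ → ℝ} {Z₁ : Ω₁ → T}
  {Z₂ : Ω₂ → T}

/-- Functions of the common variable. -/
theorem glue_mean (h₁ : ∀ ω, 0 ≤ p₁ ω) (h₂ : ∀ ω, 0 ≤ p₂ ω)
    (hZ : ∀ z, law p₁ Z₁ z = law p₂ Z₂ z) (G : T → ℝ) :
    ∑ v, p₁ v * G (Z₁ v) = ∑ ω, p₂ ω * G (Z₂ ω) := by
  have e1 : ∀ v, p₁ v * G (Z₁ v) = ∑ ω, glue p₁ p₂ Z₁ Z₂ (v, ω) * G (Z₁ v) := by
    intro v
    rw [← Finset.sum_mul, glue_fst h₁ hZ v]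
  have e2 : ∀ ω, p₂ ω * G (Z₂ ω) = ∑ v, glue p₁ p₂ Z₁ Z₂ (v, ω) * G (Z₂ ω) := by
    intro ω
    rw [← Finset.sum_mul, glue_snd h₂ hZ ω]
  rw [Finset.sum_congr rfl fun v _ => e1 v, Finset.sum_congr rfl fun ω _ => e2 ω,
    Finset.sum_comm]
  refine Finset.sum_congr rfl fun ω _ => Finset.sum_congr rfl fun v _ => ?_
  unfold glue
  by_cases h : Z₁ v = Z₂ ω
  · rw [h]
  · simp only [h, if_false, zero_mul]

/-- **One reference for each value of the common variable.** -/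
theorem best_glue [Nonempty Ω₁] (h₁ : ∀ ω, 0 ≤ p₁ ω) (h₂ : ∀ ω, 0 ≤ p₂ ω)
    (hZ : ∀ z, law p₁ Z₁ z = law p₂ Z₂ z) (bad : Ω₁ → Ω₂ → Prop) :
    ∃ v : T → Ω₁, (∀ z, 0 < law p₂ Z₂ z → 0 < p₁ (v z) ∧ Z₁ (v z) = z) ∧
      Pb p₂ (fun ω => bad (v (Z₂ ω)) ω) ≤ Pb (glue p₁ p₂ Z₁ Z₂) (fun w => bad w.1 w.2) := by
  classical
  obtain ⟨f, hf⟩ : ∃ f : Ω₁ → ℝ, f = fun v => ∑ ω, if Z₂ ω = Z₁ v ∧ bad v ω then p₂ ω else 0 :=
    ⟨_, rfl⟩
  have hf0 : ∀ v, 0 ≤ f v := by
    intro v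
    rw [hf]
    refine Finset.sum_nonneg fun ω _ => ?_
    split_ifs
    · exact h₂ ω
    · exact le_rfl
  have hex : ∀ z, ∃ v : Ω₁, 0 < law p₂ Z₂ z → (0 < p₁ v ∧ Z₁ v = z) ∧
      ∀ v', 0 < p₁ v' → Z₁ v' = z → f v ≤ f v' := by
    intro z
    by_cases hz : 0 < law p₂ Z₂ z
    · obtain ⟨S, hS⟩ : ∃ S : Finset Ω₁, S = Finset.univ.filter fun v => 0 < p₁ v ∧ Z₁ v = z :=
        ⟨_, rfl⟩
      have hne : S.Nonempty := by
        by_contra hcon
        rw [Finset.not_nonempty_iff_eq_empty] at hcon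
        have h3 : law p₁ Z₁ z = 0 := by
          unfold law
          refine Finset.sum_eq_zero fun v _ => ?_
          by_cases hv : Z₁ v = z
          · rw [if_pos hv]
            rcases (h₁ v).eq_or_lt with h4 | h4
            · exact h4.symm
            · have : v ∈ S := by
                rw [hS, Finset.mem_filter]
                exact ⟨Finset.mem_univ _, h4, hv⟩
              rw [hcon] at this
              exact absurd this (Finset.notMem_empty _)
          · rw [if_neg hv]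
        rw [← hZ z, h3] at hz
        exact absurd hz (lt_irrefl _)
      obtain ⟨v, hv, hmin⟩ := S.exists_min_image f hne
      rw [hS, Finset.mem_filter] at hv
      refine ⟨v, fun _ => ⟨hv.2, fun v' h3 h4 => hmin v' ?_⟩⟩
      rw [hS, Finset.mem_filter]
      exact ⟨Finset.mem_univ _, h3, h4⟩
    · exact ⟨Classical.arbitrary Ω₁, fun h => absurd h hz⟩
  choose v hv using hex
  refine ⟨v, fun z hz => (hv z hz).1, ?_⟩
  -- the left side
  have e1 : Pb p₂ (fun ω => bad (v (Z₂ ω)) ω) =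
      ∑ ω, p₂ ω * (f (v (Z₂ ω)) / law p₂ Z₂ (Z₂ ω)) := by
    have e2 : ∀ ω, p₂ ω * (f (v (Z₂ ω)) / law p₂ Z₂ (Z₂ ω)) =
        ∑ ω', if Z₂ ω = Z₂ ω' then (if bad (v (Z₂ ω')) ω' then p₂ ω' else 0) *
          (p₂ ω / law p₂ Z₂ (Z₂ ω')) else 0 := by
      intro ω
      rcases (h₂ ω).eq_or_lt with h3 | h3
      · rw [← h3, zero_mul]
        refine (Finset.sum_eq_zero fun ω' _ => ?_).symm
        split_ifs <;> simp
      · have h4 := hv (Z₂ ω) (law_pos h₂ Z₂ h3)
        have e3 : f (v (Z₂ ω)) = ∑ ω', if Z₂ ω' = Z₁ (v (Z₂ ω)) ∧ bad (v (Z₂ ω)) ω' then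
            p₂ ω' else 0 := by rw [hf]
        rw [e3, h4.1.2, mul_div_assoc', Finset.mul_sum, Finset.sum_div]
        refine Finset.sum_congr rfl fun ω' _ => ?_
        by_cases h5 : Z₂ ω' = Z₂ ω
        · rw [if_pos h5.symm]
          by_cases h6 : bad (v (Z₂ ω)) ω'
          · rw [if_pos ⟨h5, h6⟩, h5, if_pos h6]
            ring
          · rw [if_neg (fun h => h6 h.2), h5, if_neg h6]
            ring
        · rw [if_neg (fun h => h5 h.1), if_neg (fun h => h5 h.symm)]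
          simp
    rw [Finset.sum_congr rfl fun ω _ => e2 ω, Finset.sum_comm]
    unfold Pb
    refine Finset.sum_congr rfl fun ω' _ => ?_
    have e4 : ∑ ω, (if Z₂ ω = Z₂ ω' then (if bad (v (Z₂ ω')) ω' then p₂ ω' else 0) *
        (p₂ ω / law p₂ Z₂ (Z₂ ω')) else 0) = (if bad (v (Z₂ ω')) ω' then p₂ ω' else 0) *
        (law p₂ Z₂ (Z₂ ω') / law p₂ Z₂ (Z₂ ω')) := by
      have e5 : law p₂ Z₂ (Z₂ ω') = ∑ ω, if Z₂ ω = Z₂ ω' then p₂ ω else 0 := by
        unfold law
        refine Finset.sum_congr rfl fun ω _ => ?_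
        split_ifs <;> rfl
      conv_rhs => rw [mul_div_assoc']
      conv_rhs =>
        rw [show (if bad (v (Z₂ ω')) ω' then p₂ ω' else 0) * law p₂ Z₂ (Z₂ ω') =
          ∑ ω, (if bad (v (Z₂ ω')) ω' then p₂ ω' else 0) * (if Z₂ ω = Z₂ ω' then p₂ ω else 0) by
            rw [← Finset.mul_sum, ← e5]]
      rw [Finset.sum_div]
      refine Finset.sum_congr rfl fun ω _ => ?_
      split_ifs <;> ring
    rw [e4]
    rcases (h₂ ω').eq_or_lt with h3 | h3
    · rw [← h3]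
      simp
    · rw [div_self (law_pos h₂ Z₂ h3).ne', mul_one]
  -- the right side
  have e6 : Pb (glue p₁ p₂ Z₁ Z₂) (fun w => bad w.1 w.2) =
      ∑ v', p₁ v' / law p₁ Z₁ (Z₁ v') * f v' := by
    unfold Pb
    rw [Fintype.sum_prod_type]
    refine Finset.sum_congr rfl fun v' _ => ?_
    rw [hf, Finset.mul_sum]
    refine Finset.sum_congr rfl fun ω _ => ?_
    unfold glue
    dsimp only
    by_cases h5 : Z₁ v' = Z₂ ω
    · rw [if_pos h5]
      by_cases h6 : bad v' ω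
      · rw [if_pos h6, if_pos ⟨h5.symm, h6⟩]
        ring
      · rw [if_neg h6, if_neg (fun h => h6 h.2), mul_zero]
    · rw [if_neg h5, if_neg (fun h : _ ∧ _ => h5 h.1.symm)]
      simp
  rw [e1, e6, ← glue_mean h₁ h₂ hZ fun z => f (v z) / law p₂ Z₂ z]
  refine Finset.sum_le_sum fun v' _ => ?_
  rcases (h₁ v').eq_or_lt with h3 | h3
  · rw [← h3]
    simp
  · have h4 := law_pos h₁ Z₁ h3
    have h5 : 0 < law p₂ Z₂ (Z₁ v') := by rw [← hZ]; exact h4
    have h6 := (hv (Z₁ v') h5).2 v' h3 rfl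
    rw [hZ]
    calc p₁ v' * (f (v (Z₁ v')) / law p₂ Z₂ (Z₁ v')) =
          p₁ v' / law p₂ Z₂ (Z₁ v') * f (v (Z₁ v')) := by ring
      _ ≤ _ := mul_le_mul_of_nonneg_left h6 (by positivity)

end glue

/-- The values of an interpolation polynomial with separated nodes. -/
theorem interp_le {n k₀ : ℕ} {a b : Fin (n + 1) → ℝ} {M : ℝ}
    (ha : ∀ j j', j ≠ j' → (2 : ℝ) ^ (-(k₀ : ℤ)) ≤ |a j - a j'|) (ha1 : ∀ j, |a j| ≤ 1)
    (hb : ∀ j, |b j| ≤ M) (u : ℝ) :
    |(Lagrange.interpolate univ a b).eval u| ≤ (n + 1) * (2 ^ k₀ * (|u| + 1)) ^ n * M := by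
  classical
  rw [Lagrange.interpolate_apply, Polynomial.eval_finsetSum]
  refine (Finset.abs_sum_le_sum_abs _ _).trans ?_
  have hD : ∀ j ∈ (univ : Finset (Fin (n + 1))),
      |(Polynomial.C (b j) * Lagrange.basis univ a j).eval u| ≤ (2 ^ k₀ * (|u| + 1)) ^ n * M := by
    intro j _
    rw [Polynomial.eval_mul, Polynomial.eval_C, abs_mul, mul_comm]
    have h1 : |(Lagrange.basis univ a j).eval u| ≤ (2 ^ k₀ * (|u| + 1)) ^ n := by
      unfold Lagrange.basis
      rw [Polynomial.eval_prod, Finset.abs_prod]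
      have h2 : ∀ i ∈ univ.erase j, |(Lagrange.basisDivisor (a j) (a i)).eval u| ≤
          2 ^ k₀ * (|u| + 1) := by
        intro i hi
        have h3 := ha j i (Finset.ne_of_mem_erase hi).symm
        unfold Lagrange.basisDivisor
        rw [Polynomial.eval_mul, Polynomial.eval_C, Polynomial.eval_sub, Polynomial.eval_X,
          Polynomial.eval_C, abs_mul, abs_inv]
        have h4 : (0 : ℝ) < 2 ^ (-(k₀ : ℤ)) := by positivity
        have h5 : |a j - a i|⁻¹ ≤ 2 ^ k₀ := by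
          rw [inv_le_comm₀ (lt_of_lt_of_le h4 h3) (by positivity)]
          refine le_trans (le_of_eq ?_) h3
          rw [zpow_neg, zpow_natCast]
        refine mul_le_mul h5 ?_ (abs_nonneg _) (by positivity)
        refine (abs_sub _ _).trans ?_
        linarith [ha1 i]
      refine (Finset.prod_le_prod (fun i _ => abs_nonneg _) h2).trans (le_of_eq ?_)
      rw [Finset.prod_const, Finset.card_erase_of_mem (Finset.mem_univ _), Finset.card_univ,
        Fintype.card_fin, Nat.add_sub_cancel]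
    exact mul_le_mul h1 (hb j) (abs_nonneg _) (by positivity)
  refine (Finset.sum_le_sum hD).trans (le_of_eq ?_)
  rw [Finset.sum_const, Finset.card_univ, Fintype.card_fin, nsmul_eq_mul]
  push_cast
  ring

/-- **Closed coefficients.** -/
theorem clo_law (k n K A : ℕ) (cc ε : ℝ) (hcc : 0 < cc) (hε : 0 < ε) :
    ∃ (κ₂ κ π₀ ι ε₀ : ℝ) (k₀ j₀ X₀ : ℕ), 0 < κ₂ ∧ 0 < κ ∧ κ ≤ 1 ∧ 0 < π₀ ∧ 0 < ι ∧ 0 < ε₀ ∧
      ∀ {Ω Λ Τ γ : Type} [Fintype Ω] (p : Ω → ℝ) (L : Ω → Λ) (T : Ω → Τ) (g : Ω → γ)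
        (y : Ω → Fin k → ℤ) (c : Ω → Fin n → ℤ) (N : Ω → ℤ) (th s : Ω → ℝ)
        (co : Ω → Mon k K → ℝ) (X : ℕ), X₀ ≤ X →
        AvgA p L T g y c N th s co X A cc κ π₀ ι ε₀ j₀ →
        ∃ mu : Λ → Mon k K → Polynomial ℝ, (∀ l i, (mu l i).natDegree ≤ n) ∧
          (∀ l i (u : ℝ), |(mu l i).eval u| ≤
            (n + 1) * (2 ^ k₀ * (|u| + 1)) ^ n * (2 : ℝ) ^ (ι * X)) ∧
          Pb p (fun ω => ∃ i, (2 : ℝ) ^ (-(κ₂ * X)) < |co ω i - (mu (L ω) i).eval (th ω)|) ≤ ε := by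
  classical
  obtain ⟨κ₂, κ, π₀, ι, ε₀, k₀, j₀, X₀, h1, h2, h3, h4, h5, h6, h7⟩ := l1a k n K A cc ε hcc hε
  refine ⟨κ₂, κ, π₀, ι, ε₀, k₀, j₀, X₀, h1, h2, h3, h4, h5, h6, ?_⟩
  intro Ω Λ Τ γ _ p L T g y c N th s co X hX hA
  have hp := hA.law
  have hL := h7 p L T g y c N th s co X hX hA
  obtain ⟨bad, hbad⟩ : ∃ bad : (Fin (n + 1) → Ω) → Ω → Prop, bad = fun v ω =>
      (∃ j j', j ≠ j' ∧ |th (v j) - th (v j')| < (2 : ℝ) ^ (-(k₀ : ℤ))) ∨
      ∃ i : Mon k K, (2 : ℝ) ^ (-(κ₂ * X)) < |co ω i -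
        (Lagrange.interpolate univ (fun j => th (v j)) (fun j => co (v j) i)).eval (th ω)| :=
    ⟨_, rfl⟩
  have hne : Nonempty Ω := by
    by_contra hcon
    rw [not_nonempty_iff] at hcon
    have := hp.sum_one
    rw [Finset.univ_eq_empty, Finset.sum_empty] at this
    exact zero_ne_one this
  have hne' : Nonempty (Fin (n + 1) → Ω) := ⟨fun _ => Classical.arbitrary Ω⟩
  obtain ⟨v, hv, hPb⟩ := best_glue (p₁ := tup p L n) (p₂ := p) (Z₁ := fun v => L (v 0)) (Z₂ := L)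
    (tup_nonneg hp.nonneg L n) hp.nonneg (fun z => tup_law hp.nonneg L n z) bad
  have hle : Pb p (fun ω => bad (v (L ω)) ω) ≤ ε := by
    refine hPb.trans (le_trans (le_of_eq ?_) hL)
    unfold Pr
    rw [law_True]
    rw [hbad]
    rfl
  -- the good references
  obtain ⟨gd, hgd⟩ : ∃ gd : Λ → Prop, gd = fun l => 0 < law p L l ∧
      ∀ j j', j ≠ j' → (2 : ℝ) ^ (-(k₀ : ℤ)) ≤ |th (v l j) - th (v l j')| := ⟨_, rfl⟩
  have hinj : ∀ l, gd l → Set.InjOn (fun j => th (v l j)) (univ : Finset (Fin (n + 1))) := by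
    intro l hl j _ j' _ e
    by_contra hne
    rw [hgd] at hl
    have h8 := hl.2 j j' hne
    have e' : th (v l j) = th (v l j') := e
    rw [e', sub_self, abs_zero] at h8
    have : (0 : ℝ) < 2 ^ (-(k₀ : ℤ)) := by positivity
    linarith
  refine ⟨fun l i => if gd l then Lagrange.interpolate univ (fun j => th (v l j))
    (fun j => co (v l j) i) else 0, ?_, ?_, ?_⟩
  · intro l i
    dsimp only
    split_ifs with hl
    · have h8 := Lagrange.degree_interpolate_lt (fun j => co (v l j) i) (hinj l hl)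
      rw [Finset.card_univ, Fintype.card_fin] at h8
      by_cases h0 : Lagrange.interpolate univ (fun j => th (v l j)) (fun j => co (v l j) i) = 0
      · rw [h0, Polynomial.natDegree_zero]
        exact Nat.zero_le _
      · have := (Polynomial.natDegree_lt_iff_degree_lt h0).2 h8
        omega
    · simp
  · intro l i u
    dsimp only
    split_ifs with hl
    · have hl' := hl
      rw [hgd] at hl'
      have h8 := (hv l hl'.1)
      have h9 := (tup_pos_iff hp.nonneg L n (v l)).1 h8.1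
      refine interp_le hl'.2 (fun j => ?_) (fun j => ?_) u
      · have := hA.hth _ (h9.1 j)
        rw [abs_of_nonneg this.1]
        exact this.2.le
      · exact hA.hco _ (h9.1 j) i
    · rw [Polynomial.eval_zero, abs_zero]
      positivity
  · refine le_trans ?_ hle
    unfold Pb
    refine Finset.sum_le_sum fun ω _ => ?_
    rcases (hp.nonneg ω).eq_or_lt with h8 | h8
    · rw [← h8]
      split_ifs <;> exact le_rfl
    · by_cases h9 : bad (v (L ω)) ω
      · rw [if_pos h9]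
        split_ifs
        · exact le_rfl
        · exact hp.nonneg ω
      · rw [if_neg h9, if_neg ?_]
        intro h10
        have h11 : gd (L ω) := by
          rw [hgd]
          refine ⟨law_pos hp.nonneg L h8, fun j j' hjj => ?_⟩
          by_contra hcon
          rw [not_le] at hcon
          refine h9 ?_
          rw [hbad]
          exact Or.inl ⟨j, j', hjj, hcon⟩
        simp only [h11, if_true] at h10
        refine h9 ?_
        rw [hbad]
        exact Or.inr h10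

end Pool.D2L
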