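import Mathlib

/-!
# D2: the algebra of the germs (one function, two functions)

`U = M₀ + M₁ p` at the point `p`, `U' = M₀' + M₁' (p + τ X)` at a second point of the line with the
direction `X`. `own_aff`: the own relation is affine in `(p, τ)`. `rdA`, `rdB`, `rdC`: the entries
from the coefficients of the polynomials in the direction. `end1`: case of one function (any order
`m`). `own4`, `end4`: case of two functions, the functionals span.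
-/

set_option autoImplicit false

namespace Pool.D2G

open Finset Polynomial

/-- **The own relation is affine in the point and in the time.** -/
theorem own_aff {d k : ℕ} {R : Fin d → ℝ} {X : Fin k → ℝ} {M₀ M₀' : Fin d → ℝ}
    {M₁ M₁' : Fin d → Fin k → ℝ} {U U' : Fin d → ℝ} {p : Fin k → ℝ} {τ ε K : ℝ}
    (hR : ∀ i, |R i| ≤ K)
    (hU : ∀ i, |U i - M₀ i - ∑ j, M₁ i j * p j| ≤ ε)
    (hU' : ∀ i, |U' i - M₀' i - ∑ j, M₁' i j * (p j + τ * X j)| ≤ ε)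
    (h : |∑ i, R i * (U' i - U i)| ≤ ε) :
    |∑ j, (∑ i, R i * (M₁' i j - M₁ i j)) * p j + (∑ i, R i * ∑ j, M₁' i j * X j) * τ +
      ∑ i, R i * (M₀' i - M₀ i)| ≤ (1 + 2 * d * K) * ε := by
  have e1 : ∑ j, (∑ i, R i * (M₁' i j - M₁ i j)) * p j =
      ∑ i, R i * ∑ j, (M₁' i j - M₁ i j) * p j := by
    simp only [Finset.sum_mul, Finset.mul_sum]
    rw [Finset.sum_comm]
    exact Finset.sum_congr rfl fun i _ => Finset.sum_congr rfl fun j _ => by ring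
  have e2 : (∑ i, R i * ∑ j, M₁' i j * X j) * τ = ∑ i, R i * ((∑ j, M₁' i j * X j) * τ) := by
    rw [Finset.sum_mul]
    exact Finset.sum_congr rfl fun i _ => by ring
  have e3 : ∑ j, (∑ i, R i * (M₁' i j - M₁ i j)) * p j +
      (∑ i, R i * ∑ j, M₁' i j * X j) * τ + ∑ i, R i * (M₀' i - M₀ i) =
      ∑ i, R i * (U' i - U i) + ∑ i, R i * ((U i - M₀ i - ∑ j, M₁ i j * p j) -
        (U' i - M₀' i - ∑ j, M₁' i j * (p j + τ * X j))) := by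
    rw [e1, e2, ← Finset.sum_add_distrib, ← Finset.sum_add_distrib, ← Finset.sum_add_distrib]
    refine Finset.sum_congr rfl fun i _ => ?_
    have e4 : ∑ j, (M₁' i j - M₁ i j) * p j = ∑ j, M₁' i j * p j - ∑ j, M₁ i j * p j := by
      rw [← Finset.sum_sub_distrib]
      exact Finset.sum_congr rfl fun j _ => by ring
    have e5 : ∑ j, M₁' i j * (p j + τ * X j) = ∑ j, M₁' i j * p j + (∑ j, M₁' i j * X j) * τ := by
      rw [Finset.sum_mul, ← Finset.sum_add_distrib]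
      exact Finset.sum_congr rfl fun j _ => by ring
    rw [e4, e5]
    ring
  rw [e3]
  have h1 : ∀ i, |R i * ((U i - M₀ i - ∑ j, M₁ i j * p j) -
      (U' i - M₀' i - ∑ j, M₁' i j * (p j + τ * X j)))| ≤ 2 * K * ε := by
    intro i
    rw [abs_mul]
    have h2 := (abs_sub (U i - M₀ i - ∑ j, M₁ i j * p j)
      (U' i - M₀' i - ∑ j, M₁' i j * (p j + τ * X j))).trans (add_le_add (hU i) (hU' i))
    have h3 := mul_le_mul (hR i) h2 (abs_nonneg _) ((abs_nonneg _).trans (hR i))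
    linarith
  have h2 : |∑ i, R i * ((U i - M₀ i - ∑ j, M₁ i j * p j) -
      (U' i - M₀' i - ∑ j, M₁' i j * (p j + τ * X j)))| ≤ d * (2 * K * ε) := by
    refine (Finset.abs_sum_le_sum_abs _ _).trans ?_
    refine (Finset.sum_le_card_nsmul _ _ (2 * K * ε) fun i _ => h1 i).trans ?_
    rw [Finset.card_univ, Fintype.card_fin, nsmul_eq_mul]
  have h3 := abs_add_le (∑ i, R i * (U' i - U i))
    (∑ i, R i * ((U i - M₀ i - ∑ j, M₁ i j * p j) -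
      (U' i - M₀' i - ∑ j, M₁' i j * (p j + τ * X j))))
  linarith

/-! ### Polynomials in the direction -/

/-- `D 0 + D 1 E` -/
noncomputable def pA (D : Fin 2 → ℝ) : ℝ[X] := C (D 1) * X + C (D 0)

/-- `D 0 + 2 D 1 E + D 2 E ^ 2` -/
noncomputable def pB (D : Fin 3 → ℝ) : ℝ[X] := C (D 2) * X ^ 2 + C (2 * D 1) * X + C (D 0)

/-- The quadratic form `∑ M i j X i X j`, `X = (1, E)`. -/
noncomputable def pQ (M : Fin 2 → Fin 2 → ℝ) : ℝ[X] :=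
  C (M 1 1) * X ^ 2 + C (M 0 1 + M 1 0) * X + C (M 0 0)

/-- The cubic form `∑ j, (M 0 j + 2 M 1 j E + M 2 j E ^ 2) X j`, `X = (1, E)`. -/
noncomputable def pC (M : Fin 3 → Fin 2 → ℝ) : ℝ[X] :=
  C (M 2 1) * X ^ 3 + C (2 * M 1 1 + M 2 0) * X ^ 2 + C (M 0 1 + 2 * M 1 0) * X + C (M 0 0)

theorem pA_deg (D : Fin 2 → ℝ) : (pA D).natDegree ≤ 1 := natDegree_linear_le

theorem pB_deg (D : Fin 3 → ℝ) : (pB D).natDegree ≤ 2 := natDegree_quadratic_le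

theorem pQ_deg (M : Fin 2 → Fin 2 → ℝ) : (pQ M).natDegree ≤ 2 := natDegree_quadratic_le

theorem pC_deg (M : Fin 3 → Fin 2 → ℝ) : (pC M).natDegree ≤ 3 := natDegree_cubic_le

theorem pA_eval (D : Fin 2 → ℝ) (E : ℝ) : (pA D).eval E = D 0 + E * D 1 := by
  unfold pA
  simp
  ring

theorem pB_eval (D : Fin 3 → ℝ) (E : ℝ) : (pB D).eval E = D 0 + 2 * E * D 1 + E ^ 2 * D 2 := by
  unfold pB
  simp
  ring

theorem pQ_eval (M : Fin 2 → Fin 2 → ℝ) (E : ℝ) :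
    (pQ M).eval E = (M 0 0 + M 0 1 * E) + E * (M 1 0 + M 1 1 * E) := by
  unfold pQ
  simp
  ring

theorem pC_eval (M : Fin 3 → Fin 2 → ℝ) (E : ℝ) :
    (pC M).eval E = (M 0 0 + M 0 1 * E) + 2 * E * (M 1 0 + M 1 1 * E) +
      E ^ 2 * (M 2 0 + M 2 1 * E) := by
  unfold pC
  simp
  ring

/-- Entries from the coefficients. -/
theorem rdA {D : Fin 2 → ℝ} {ε : ℝ} (h : ∀ n, |(pA D).coeff n| ≤ ε) (i : Fin 2) :
    |D i| ≤ ε := by
  have h0 := h 0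
  have h1 := h 1
  unfold pA at h0 h1
  simp [coeff_X, coeff_C] at h0 h1
  fin_cases i
  · exact h0
  · exact h1

theorem rdB {D : Fin 3 → ℝ} {ε : ℝ} (h : ∀ n, |(pB D).coeff n| ≤ ε) (i : Fin 3) :
    |D i| ≤ ε := by
  have h0 := h 0
  have h1 := h 1
  have h2 := h 2
  unfold pB at h0 h1 h2
  simp [coeff_X, coeff_C, coeff_X_pow] at h0 h1 h2
  have h3 : |D 1| ≤ ε := by
    have := abs_nonneg (D 1)
    linarith
  fin_cases i
  · exact h0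
  · exact h3
  · exact h2

theorem rdQ {M : Fin 2 → Fin 2 → ℝ} {ε : ℝ} (h : ∀ n, |(pQ M).coeff n| ≤ ε) :
    |M 0 0| ≤ ε ∧ |M 0 1 + M 1 0| ≤ ε ∧ |M 1 1| ≤ ε := by
  have h0 := h 0
  have h1 := h 1
  have h2 := h 2
  unfold pQ at h0 h1 h2
  simp only [coeff_add, coeff_C_mul, coeff_X_pow, coeff_X, coeff_C] at h0 h1 h2
  norm_num at h0 h1 h2
  exact ⟨h0, h1, h2⟩

theorem rdC {M : Fin 3 → Fin 2 → ℝ} {ε : ℝ} (h : ∀ n, |(pC M).coeff n| ≤ ε) :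
    |M 0 0| ≤ ε ∧ |M 0 1 + 2 * M 1 0| ≤ ε ∧ |2 * M 1 1 + M 2 0| ≤ ε ∧ |M 2 1| ≤ ε := by
  have h0 := h 0
  have h1 := h 1
  have h2 := h 2
  have h3 := h 3
  unfold pC at h0 h1 h2 h3
  simp only [coeff_add, coeff_C_mul, coeff_X_pow, coeff_X, coeff_C] at h0 h1 h2 h3
  norm_num at h0 h1 h2 h3
  exact ⟨h0, h1, h2, h3⟩

/-! ### One function -/

/-- **One function.** `m = 2`: `G = 2 Θ₂`. -/
theorem end1 {K ε μ m a τ E : ℝ} {p U U' G M₀ M₀' : Fin 2 → ℝ} {M₁ M₁' : Fin 2 → Fin 2 → ℝ}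
    (hK : 1 ≤ K) (hμ : 0 < μ) (hμ1 : μ ≤ 1) (hE : |E| ≤ K) (hp : ∀ j, |p j| ≤ K)
    (hτ : |τ| ≤ K) (hτμ : μ ≤ |τ|) (ha : |a| ≤ K) (haμ : μ ≤ |a|) (hm : 0 ≤ m) (hmK : m ≤ K)
    (h0 : ∀ i, |M₀' i - M₀ i| ≤ ε) (h1 : ∀ i j, |M₁' i j - M₁ i j| ≤ ε)
    (s0 : |M₁' 0 0| ≤ ε) (s1 : |M₁' 0 1 + M₁' 1 0| ≤ ε) (s2 : |M₁' 1 1| ≤ ε)
    (hU : ∀ i, |U i - M₀ i - ∑ j, M₁ i j * p j| ≤ ε)
    (hU' : ∀ i, |U' i - M₀' i - ∑ j, M₁' i j * (p j + τ * ![1, E] j)| ≤ ε)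
    (hα : ∀ j, |G j + m * a * (M₁ 0 j + E * M₁ 1 j)| ≤ ε)
    (hβ : ∀ j, |a * (U' j - U j) + τ * G j| ≤ ε) (j : Fin 2) :
    |U' j - U j| ≤ 20 * K ^ 6 * ε / μ ^ 2 := by
  have hε : 0 ≤ ε := (abs_nonneg _).trans s0
  have hK0 : 0 < K := by linarith
  have d : ∀ i, U' i - U i = τ * (M₁' i 0 + M₁' i 1 * E) + (M₀' i - M₀ i) +
      ((M₁' i 0 - M₁ i 0) * p 0 + (M₁' i 1 - M₁ i 1) * p 1) +
      ((U' i - M₀' i - ∑ j, M₁' i j * (p j + τ * ![1, E] j)) -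
        (U i - M₀ i - ∑ j, M₁ i j * p j)) := by
    intro i
    simp only [Fin.sum_univ_two, Matrix.cons_val_zero, Matrix.cons_val_one]
    ring
  have q : ∀ i, |U' i - U i - τ * (M₁' i 0 + M₁' i 1 * E)| ≤ (3 + 2 * K) * ε := by
    intro i
    have a1 := abs_le.mp (h0 i)
    have a2 := abs_le.mp (hU i)
    have a3 := abs_le.mp (hU' i)
    have a4 : |(M₁' i 0 - M₁ i 0) * p 0| ≤ ε * K := by
      rw [abs_mul]
      exact mul_le_mul (h1 i 0) (hp 0) (abs_nonneg _) hε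
    have a5 : |(M₁' i 1 - M₁ i 1) * p 1| ≤ ε * K := by
      rw [abs_mul]
      exact mul_le_mul (h1 i 1) (hp 1) (abs_nonneg _) hε
    have a6 := abs_le.mp a4
    have a7 := abs_le.mp a5
    have a8 := d i
    rw [abs_le]
    constructor <;> linarith
  -- the number `ζ = M₁' 1 0`
  have b1 : |U' 1 - U 1 - τ * M₁' 1 0| ≤ 6 * K ^ 2 * ε := by
    have c1 := abs_le.mp (q 1)
    have c2 : |τ * (M₁' 1 1 * E)| ≤ K * (ε * K) := by
      rw [abs_mul, abs_mul]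
      exact mul_le_mul hτ (mul_le_mul s2 hE (abs_nonneg _) hε) (by positivity) hK0.le
    have c3 := abs_le.mp c2
    have c4 : (3 + 2 * K) * ε + K * (ε * K) ≤ 6 * K ^ 2 * ε := by
      have : 3 + 2 * K + K * K ≤ 6 * K ^ 2 := by nlinarith
      calc (3 + 2 * K) * ε + K * (ε * K) = (3 + 2 * K + K * K) * ε := by ring
        _ ≤ _ := mul_le_mul_of_nonneg_right this hε
    have c5 : τ * (M₁' 1 0 + M₁' 1 1 * E) = τ * M₁' 1 0 + τ * (M₁' 1 1 * E) := by ring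
    rw [c5] at c1
    rw [abs_le]
    constructor <;> linarith
  have b2 : |G 1 - m * a * M₁' 1 0| ≤ 5 * K ^ 3 * ε := by
    have c1 := abs_le.mp (hα 1)
    have c2 : |M₁ 0 1 + E * M₁ 1 1 + M₁' 1 0| ≤ 4 * K * ε := by
      have g1 := abs_le.mp (h1 0 1)
      have g2 := abs_le.mp s1
      have g3 : |M₁ 1 1| ≤ 2 * ε := by
        have g4 := abs_le.mp (h1 1 1)
        have g5 := abs_le.mp s2
        rw [abs_le]
        constructor <;> linarith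
      have g6 : |E * M₁ 1 1| ≤ K * (2 * ε) := by
        rw [abs_mul]
        exact mul_le_mul hE g3 (abs_nonneg _) hK0.le
      have g7 := abs_le.mp g6
      have g8 : 2 * ε ≤ 2 * K * ε := by nlinarith
      rw [abs_le]
      constructor <;> linarith
    have c3 : |m * a * (M₁ 0 1 + E * M₁ 1 1 + M₁' 1 0)| ≤ K * K * (4 * K * ε) := by
      rw [abs_mul, abs_mul, abs_of_nonneg hm]
      exact mul_le_mul (mul_le_mul hmK ha (abs_nonneg _) hK0.le) c2 (abs_nonneg _) (by positivity)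
    have c4 := abs_le.mp c3
    have c5 : ε + K * K * (4 * K * ε) ≤ 5 * K ^ 3 * ε := by
      have : 1 + 4 * K ^ 3 ≤ 5 * K ^ 3 := by
        have := one_le_pow₀ hK (n := 3)
        linarith
      calc ε + K * K * (4 * K * ε) = (1 + 4 * K ^ 3) * ε := by ring
        _ ≤ _ := mul_le_mul_of_nonneg_right this hε
    have c6 : m * a * (M₁ 0 1 + E * M₁ 1 1 + M₁' 1 0) =
        m * a * (M₁ 0 1 + E * M₁ 1 1) + m * a * M₁' 1 0 := by ring
    rw [c6] at c4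
    rw [abs_le]
    constructor <;> linarith
  have b3 : |(m + 1) * (a * τ * M₁' 1 0)| ≤ 12 * K ^ 4 * ε := by
    have c1 := abs_le.mp (hβ 1)
    have c2 : |a * (U' 1 - U 1 - τ * M₁' 1 0)| ≤ K * (6 * K ^ 2 * ε) := by
      rw [abs_mul]
      exact mul_le_mul ha b1 (abs_nonneg _) hK0.le
    have c3 : |τ * (G 1 - m * a * M₁' 1 0)| ≤ K * (5 * K ^ 3 * ε) := by
      rw [abs_mul]
      exact mul_le_mul hτ b2 (abs_nonneg _) hK0.le
    have c4 := abs_le.mp c2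
    have c5 := abs_le.mp c3
    have c6 : (m + 1) * (a * τ * M₁' 1 0) = (a * (U' 1 - U 1) + τ * G 1) -
        a * (U' 1 - U 1 - τ * M₁' 1 0) - τ * (G 1 - m * a * M₁' 1 0) := by ring
    have c7 : ε + K * (6 * K ^ 2 * ε) + K * (5 * K ^ 3 * ε) ≤ 12 * K ^ 4 * ε := by
      have g1 := one_le_pow₀ hK (n := 4)
      have g2 : K ^ 3 ≤ K ^ 4 := pow_le_pow_right₀ hK (by norm_num)
      calc ε + K * (6 * K ^ 2 * ε) + K * (5 * K ^ 3 * ε) = (1 + 6 * K ^ 3 + 5 * K ^ 4) * ε := by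
            ring
        _ ≤ _ := mul_le_mul_of_nonneg_right (by linarith) hε
    rw [c6, abs_le]
    constructor <;> linarith
  have b4 : |M₁' 1 0| ≤ 12 * K ^ 4 * ε / μ ^ 2 := by
    rw [le_div_iff₀ (by positivity)]
    refine le_trans ?_ b3
    rw [abs_mul, abs_mul, abs_mul, abs_of_nonneg (by linarith : (0 : ℝ) ≤ m + 1)]
    have c1 : μ ^ 2 ≤ |a| * |τ| := by
      rw [sq]
      exact mul_le_mul haμ hτμ hμ.le (abs_nonneg _)
    have c2 : |M₁' 1 0| * μ ^ 2 ≤ |a| * |τ| * |M₁' 1 0| := by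
      rw [mul_comm]
      exact mul_le_mul_of_nonneg_right c1 (abs_nonneg _)
    have c3 : 0 ≤ |a| * |τ| * |M₁' 1 0| := by positivity
    nlinarith
  have hμ2 : μ ^ 2 ≤ 1 := pow_le_one₀ hμ.le hμ1
  have k1 : ε ≤ K ^ 4 * ε / μ ^ 2 := by
    rw [le_div_iff₀ (by positivity)]
    have := one_le_pow₀ hK (n := 4)
    nlinarith [mul_le_mul_of_nonneg_left hμ2 hε, mul_le_mul_of_nonneg_right this hε]
  obtain ⟨T, hT⟩ : ∃ T, T = K ^ 4 * ε / μ ^ 2 := ⟨_, rfl⟩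
  have hT0 : 0 ≤ T := by rw [hT]; positivity
  rw [← hT] at k1
  have b5 : |M₁' 1 0| ≤ 12 * T := by
    rw [hT]
    refine b4.trans (le_of_eq ?_)
    ring
  have fin : 20 * K ^ 6 * ε / μ ^ 2 = 20 * K ^ 2 * T := by
    rw [hT]
    ring
  rw [fin]
  fin_cases j
  · -- the first component
    show |U' 0 - U 0| ≤ 20 * K ^ 2 * T
    have c1 := abs_le.mp (q 0)
    have c2 : |M₁' 0 0 + M₁' 0 1 * E| ≤ 14 * K * T := by
      have g1 : |M₁' 0 1| ≤ 13 * T := by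
        have := abs_le.mp s1
        have := abs_le.mp b5
        rw [abs_le]
        constructor <;> linarith
      have g2 : |M₁' 0 1 * E| ≤ 13 * T * K := by
        rw [abs_mul]
        exact mul_le_mul g1 hE (abs_nonneg _) (by positivity)
      have g3 := abs_le.mp g2
      have g4 := abs_le.mp s0
      have g5 : T ≤ K * T := by nlinarith
      rw [abs_le]
      constructor <;> linarith
    have c3 : |τ * (M₁' 0 0 + M₁' 0 1 * E)| ≤ K * (14 * K * T) := by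
      rw [abs_mul]
      exact mul_le_mul hτ c2 (abs_nonneg _) hK0.le
    have c4 := abs_le.mp c3
    have c5 : (3 + 2 * K) * ε ≤ 5 * K ^ 2 * T := by
      have g1 : (3 + 2 * K) * ε ≤ (3 + 2 * K) * T := mul_le_mul_of_nonneg_left k1 (by positivity)
      have g2 : 3 + 2 * K ≤ 5 * K ^ 2 := by nlinarith
      exact g1.trans (mul_le_mul_of_nonneg_right g2 hT0)
    have c6 : K * (14 * K * T) = 14 * K ^ 2 * T := by ring
    rw [c6] at c4
    have c7 : 0 ≤ K ^ 2 * T := by positivity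
    rw [abs_le]
    constructor <;> linarith
  · show |U' 1 - U 1| ≤ 20 * K ^ 2 * T
    have c1 := abs_le.mp b1
    have c2 : |τ * M₁' 1 0| ≤ K * (12 * T) := by
      rw [abs_mul]
      exact mul_le_mul hτ b5 (abs_nonneg _) hK0.le
    have c3 := abs_le.mp c2
    have c4 : 6 * K ^ 2 * ε ≤ 6 * K ^ 2 * T := mul_le_mul_of_nonneg_left k1 (by positivity)
    have c5 : K * (12 * T) ≤ 12 * K ^ 2 * T := by
      have : K * T ≤ K ^ 2 * T := mul_le_mul_of_nonneg_right (by nlinarith) hT0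
      linarith
    have c6 : 0 ≤ K ^ 2 * T := by positivity
    rw [abs_le]
    constructor <;> linarith

/-! ### Two functions, the functionals span -/

/-- The germs of two functions: `U = (u₀, u₁, v₀, v₁)`. -/
structure G4 (K ε τ E : ℝ) (p : Fin 2 → ℝ) (U U' M₀ M₀' : Fin 4 → ℝ) (M₁ M₁' : Fin 4 → Fin 2 → ℝ) :
    Prop where
  hK : 1 ≤ K
  hE : |E| ≤ K
  hp : ∀ j, |p j| ≤ K
  hτ : |τ| ≤ K
  h0 : ∀ i, |M₀' i - M₀ i| ≤ ε
  h1 : ∀ i j, |M₁' i j - M₁ i j| ≤ ε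
  s0 : |M₁' 0 0| ≤ ε
  s1 : |M₁' 0 1 + M₁' 1 0| ≤ ε
  s2 : |M₁' 1 1| ≤ ε
  r0 : |M₁' 2 0| ≤ ε
  r1 : |M₁' 2 1 + M₁' 3 0| ≤ ε
  r2 : |M₁' 3 1| ≤ ε
  hU : ∀ i, |U i - M₀ i - ∑ j, M₁ i j * p j| ≤ ε
  hU' : ∀ i, |U' i - M₀' i - ∑ j, M₁' i j * (p j + τ * ![1, E] j)| ≤ ε

section
variable {K ε τ E : ℝ} {p : Fin 2 → ℝ} {U U' M₀ M₀' : Fin 4 → ℝ} {M₁ M₁' : Fin 4 → Fin 2 → ℝ}

theorem G4.eps (D : G4 K ε τ E p U U' M₀ M₀' M₁ M₁') : 0 ≤ ε := (abs_nonneg _).trans D.s0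

theorem G4.dif (D : G4 K ε τ E p U U' M₀ M₀' M₁ M₁') (i : Fin 4) :
    |U' i - U i - τ * (M₁' i 0 + M₁' i 1 * E)| ≤ 5 * K * ε := by
  have hε := D.eps
  have hK := D.hK
  have d : U' i - U i = τ * (M₁' i 0 + M₁' i 1 * E) + (M₀' i - M₀ i) +
      ((M₁' i 0 - M₁ i 0) * p 0 + (M₁' i 1 - M₁ i 1) * p 1) +
      ((U' i - M₀' i - ∑ j, M₁' i j * (p j + τ * ![1, E] j)) -
        (U i - M₀ i - ∑ j, M₁ i j * p j)) := by
    simp only [Fin.sum_univ_two, Matrix.cons_val_zero, Matrix.cons_val_one]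
    ring
  have a1 := abs_le.mp (D.h0 i)
  have a2 := abs_le.mp (D.hU i)
  have a3 := abs_le.mp (D.hU' i)
  have a4 : |(M₁' i 0 - M₁ i 0) * p 0| ≤ ε * K := by
    rw [abs_mul]
    exact mul_le_mul (D.h1 i 0) (D.hp 0) (abs_nonneg _) hε
  have a5 : |(M₁' i 1 - M₁ i 1) * p 1| ≤ ε * K := by
    rw [abs_mul]
    exact mul_le_mul (D.h1 i 1) (D.hp 1) (abs_nonneg _) hε
  have a6 := abs_le.mp a4
  have a7 := abs_le.mp a5
  have a9 : 3 * ε ≤ 3 * K * ε := by nlinarith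
  rw [abs_le]
  constructor <;> linarith

/-- The relation `α` of one direction, second component: `Θ 1 = A ζ`. -/
theorem G4.alp (D : G4 K ε τ E p U U' M₀ M₀' M₁ M₁') {A : Fin 2 → ℝ} {θ F : ℝ}
    (hA : ∀ i, |A i| ≤ K) (hF : |F| ≤ K)
    (hα : |θ + (A 0 * (M₁ 0 1 + F * M₁ 1 1) + A 1 * (M₁ 2 1 + F * M₁ 3 1))| ≤ ε) :
    |θ - (A 0 * M₁' 1 0 + A 1 * M₁' 3 0)| ≤ 9 * K ^ 2 * ε := by
  have hε := D.eps
  have hK := D.hK
  have hK0 : 0 < K := by linarith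
  have key : ∀ x y z w x' : ℝ, |x' - x| ≤ ε → |x' + z| ≤ ε → |w| ≤ 2 * ε →
      |(x + F * w) + z| ≤ 4 * K * ε := by
    intro x y z w x' g1 g2 g3
    have g4 : |F * w| ≤ K * (2 * ε) := by
      rw [abs_mul]
      exact mul_le_mul hF g3 (abs_nonneg _) hK0.le
    have g5 := abs_le.mp g4
    have g6 := abs_le.mp g1
    have g7 := abs_le.mp g2
    have g8 : 2 * ε ≤ 2 * K * ε := by nlinarith
    rw [abs_le]
    constructor <;> linarith
  have w1 : |M₁ 1 1| ≤ 2 * ε := by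
    have g4 := abs_le.mp (D.h1 1 1)
    have g5 := abs_le.mp D.s2
    rw [abs_le]
    constructor <;> linarith
  have w2 : |M₁ 3 1| ≤ 2 * ε := by
    have g4 := abs_le.mp (D.h1 3 1)
    have g5 := abs_le.mp D.r2
    rw [abs_le]
    constructor <;> linarith
  have k1 := key (M₁ 0 1) 0 (M₁' 1 0) (M₁ 1 1) (M₁' 0 1) (D.h1 0 1) D.s1 w1
  have k2 := key (M₁ 2 1) 0 (M₁' 3 0) (M₁ 3 1) (M₁' 2 1) (D.h1 2 1) D.r1 w2
  have l1 : |A 0 * ((M₁ 0 1 + F * M₁ 1 1) + M₁' 1 0)| ≤ K * (4 * K * ε) := by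
    rw [abs_mul]
    exact mul_le_mul (hA 0) k1 (abs_nonneg _) hK0.le
  have l2 : |A 1 * ((M₁ 2 1 + F * M₁ 3 1) + M₁' 3 0)| ≤ K * (4 * K * ε) := by
    rw [abs_mul]
    exact mul_le_mul (hA 1) k2 (abs_nonneg _) hK0.le
  have m1 := abs_le.mp l1
  have m2 := abs_le.mp l2
  have m3 := abs_le.mp hα
  have e1 : θ - (A 0 * M₁' 1 0 + A 1 * M₁' 3 0) =
      (θ + (A 0 * (M₁ 0 1 + F * M₁ 1 1) + A 1 * (M₁ 2 1 + F * M₁ 3 1))) -
      A 0 * ((M₁ 0 1 + F * M₁ 1 1) + M₁' 1 0) - A 1 * ((M₁ 2 1 + F * M₁ 3 1) + M₁' 3 0) := by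
    ring
  have e2 : ε + K * (4 * K * ε) + K * (4 * K * ε) ≤ 9 * K ^ 2 * ε := by
    have := one_le_pow₀ hK (n := 2)
    calc ε + K * (4 * K * ε) + K * (4 * K * ε) = (1 + 8 * K ^ 2) * ε := by ring
      _ ≤ _ := mul_le_mul_of_nonneg_right (by linarith) hε
  rw [e1, abs_le]
  constructor <;> linarith

/-- **Two functions, the own direction**: `A ζ` and `Θ` are small. -/
theorem own4 {μ : ℝ} (D : G4 K ε τ E p U U' M₀ M₀' M₁ M₁') (hμ : 0 < μ) (hμ1 : μ ≤ 1)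
    (hτμ : μ ≤ |τ|) {A Θ : Fin 2 → ℝ} (hA : ∀ i, |A i| ≤ K)
    (hα : ∀ j, |Θ j + (A 0 * (M₁ 0 j + E * M₁ 1 j) + A 1 * (M₁ 2 j + E * M₁ 3 j))| ≤ ε)
    (hβ : |(A 0 * (U' 1 - U 1) + A 1 * (U' 3 - U 3)) + 2 * τ * Θ 1| ≤ ε) :
    |A 0 * M₁' 1 0 + A 1 * M₁' 3 0| ≤ 11 * K ^ 3 * ε / μ ∧ ∀ j, |Θ j| ≤ 30 * K ^ 4 * ε / μ := by
  have hε := D.eps
  have hK := D.hK
  have hK0 : 0 < K := by linarith
  have a1 := D.alp hA D.hE (hα 1)
  obtain ⟨z, hz⟩ : ∃ z, z = A 0 * M₁' 1 0 + A 1 * M₁' 3 0 := ⟨_, rfl⟩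
  rw [← hz] at a1 ⊢
  have b : ∀ i : Fin 4, |M₁' i 1| ≤ ε → |U' i - U i - τ * M₁' i 0| ≤ 6 * K ^ 2 * ε := by
    intro i hi
    have c1 := abs_le.mp (D.dif i)
    have c2 : |τ * (M₁' i 1 * E)| ≤ K * (ε * K) := by
      rw [abs_mul, abs_mul]
      exact mul_le_mul D.hτ (mul_le_mul hi D.hE (abs_nonneg _) hε) (by positivity) hK0.le
    have c3 := abs_le.mp c2
    have c4 : 5 * K * ε + K * (ε * K) ≤ 6 * K ^ 2 * ε := by
      calc 5 * K * ε + K * (ε * K) = (5 * K + K * K) * ε := by ring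
        _ ≤ _ := mul_le_mul_of_nonneg_right (by nlinarith) hε
    have c5 : τ * (M₁' i 0 + M₁' i 1 * E) = τ * M₁' i 0 + τ * (M₁' i 1 * E) := by ring
    rw [c5] at c1
    rw [abs_le]
    constructor <;> linarith
  have b1 := b 1 D.s2
  have b2 := b 3 D.r2
  have c1 : |A 0 * (U' 1 - U 1 - τ * M₁' 1 0)| ≤ K * (6 * K ^ 2 * ε) := by
    rw [abs_mul]
    exact mul_le_mul (hA 0) b1 (abs_nonneg _) hK0.le
  have c2 : |A 1 * (U' 3 - U 3 - τ * M₁' 3 0)| ≤ K * (6 * K ^ 2 * ε) := by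
    rw [abs_mul]
    exact mul_le_mul (hA 1) b2 (abs_nonneg _) hK0.le
  have c3 : |2 * τ * (Θ 1 - z)| ≤ 2 * K * (9 * K ^ 2 * ε) := by
    rw [abs_mul, abs_mul, abs_two]
    exact mul_le_mul (by linarith [D.hτ]) a1 (abs_nonneg _) (by linarith)
  have e1 : 3 * (τ * z) = ((A 0 * (U' 1 - U 1) + A 1 * (U' 3 - U 3)) + 2 * τ * Θ 1) -
      A 0 * (U' 1 - U 1 - τ * M₁' 1 0) - A 1 * (U' 3 - U 3 - τ * M₁' 3 0) -
      2 * τ * (Θ 1 - z) := by
    rw [hz]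
    ring
  have d1 := abs_le.mp hβ
  have d2 := abs_le.mp c1
  have d3 := abs_le.mp c2
  have d4 := abs_le.mp c3
  have e2 : ε + 2 * (K * (6 * K ^ 2 * ε)) + 2 * K * (9 * K ^ 2 * ε) ≤ 31 * K ^ 3 * ε := by
    have := one_le_pow₀ hK (n := 3)
    calc ε + 2 * (K * (6 * K ^ 2 * ε)) + 2 * K * (9 * K ^ 2 * ε) = (1 + 30 * K ^ 3) * ε := by ring
      _ ≤ _ := mul_le_mul_of_nonneg_right (by linarith) hε
  have e3 : |3 * (τ * z)| ≤ 31 * K ^ 3 * ε := by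
    rw [e1, abs_le]
    constructor <;> linarith
  have e4 : |z| ≤ 11 * K ^ 3 * ε / μ := by
    rw [le_div_iff₀ hμ]
    rw [abs_mul, abs_mul, abs_of_pos (by norm_num : (0 : ℝ) < 3)] at e3
    have g1 : |z| * μ ≤ |τ| * |z| := by
      rw [mul_comm]
      exact mul_le_mul_of_nonneg_right hτμ (abs_nonneg _)
    have g2 : 0 ≤ K ^ 3 * ε := by positivity
    linarith
  obtain ⟨T, hT⟩ : ∃ T, T = K ^ 3 * ε / μ := ⟨_, rfl⟩
  have hT0 : 0 ≤ T := by rw [hT]; positivity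
  have hT1 : K ^ 3 * ε ≤ T := by
    rw [hT, le_div_iff₀ hμ]
    have : 0 ≤ K ^ 3 * ε := by positivity
    nlinarith
  have e5 : |z| ≤ 11 * T := by
    rw [hT]
    refine e4.trans (le_of_eq (by ring))
  have hK3 : K ^ 2 * ε ≤ K ^ 3 * ε :=
    mul_le_mul_of_nonneg_right (pow_le_pow_right₀ hK (by norm_num)) hε
  refine ⟨e4, fun j => ?_⟩
  have fin : 30 * K ^ 4 * ε / μ = 30 * K * T := by
    rw [hT]
    ring
  rw [fin]
  have hKT : T ≤ K * T := by nlinarith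
  fin_cases j
  · show |Θ 0| ≤ 30 * K * T
    have g0 := abs_le.mp (hα 0)
    -- `A 0 (M₁ 0 0 + E M₁ 1 0) + A 1 (M₁ 2 0 + E M₁ 3 0)` is near `E z`
    have f1 : ∀ x x' w w' : ℝ, |x' - x| ≤ ε → |x'| ≤ ε → |w' - w| ≤ ε →
        |(x + E * w) - E * w'| ≤ 3 * K * ε := by
      intro x x' w w' r1 r2 r3
      have r4 : |E * (w' - w)| ≤ K * ε := by
        rw [abs_mul]
        exact mul_le_mul D.hE r3 (abs_nonneg _) hK0.le
      have r5 := abs_le.mp r4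
      have r6 := abs_le.mp r1
      have r7 := abs_le.mp r2
      have r8 : 2 * ε ≤ 2 * K * ε := by nlinarith
      rw [abs_le]
      constructor <;> linarith
    have f2 := f1 (M₁ 0 0) (M₁' 0 0) (M₁ 1 0) (M₁' 1 0) (D.h1 0 0) D.s0 (D.h1 1 0)
    have f3 := f1 (M₁ 2 0) (M₁' 2 0) (M₁ 3 0) (M₁' 3 0) (D.h1 2 0) D.r0 (D.h1 3 0)
    have f4 : |A 0 * ((M₁ 0 0 + E * M₁ 1 0) - E * M₁' 1 0)| ≤ K * (3 * K * ε) := by
      rw [abs_mul]
      exact mul_le_mul (hA 0) f2 (abs_nonneg _) hK0.le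
    have f5 : |A 1 * ((M₁ 2 0 + E * M₁ 3 0) - E * M₁' 3 0)| ≤ K * (3 * K * ε) := by
      rw [abs_mul]
      exact mul_le_mul (hA 1) f3 (abs_nonneg _) hK0.le
    have f6 : |E * z| ≤ K * (11 * T) := by
      rw [abs_mul]
      exact mul_le_mul D.hE e5 (abs_nonneg _) hK0.le
    have i1 := abs_le.mp f4
    have i2 := abs_le.mp f5
    have i3 := abs_le.mp f6
    have i4 : Θ 0 = (Θ 0 + (A 0 * (M₁ 0 0 + E * M₁ 1 0) + A 1 * (M₁ 2 0 + E * M₁ 3 0))) -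
        A 0 * ((M₁ 0 0 + E * M₁ 1 0) - E * M₁' 1 0) -
        A 1 * ((M₁ 2 0 + E * M₁ 3 0) - E * M₁' 3 0) - E * z := by
      rw [hz]
      ring
    have i5 : ε + 2 * (K * (3 * K * ε)) ≤ 7 * T := by
      have := one_le_pow₀ hK (n := 2)
      calc ε + 2 * (K * (3 * K * ε)) = (1 + 6 * K ^ 2) * ε := by ring
        _ ≤ (7 * K ^ 2) * ε := mul_le_mul_of_nonneg_right (by linarith) hε
        _ ≤ 7 * T := by linarith
    rw [i4, abs_le]
    constructor <;> linarith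
  · show |Θ 1| ≤ 30 * K * T
    have g1 := abs_le.mp a1
    have g2 := abs_le.mp e5
    have g3 : 9 * K ^ 2 * ε ≤ 9 * T := by linarith
    rw [abs_le]
    constructor <;> linarith

/-- **Two functions: the germ is constant**, from two directions with small `Θ`. -/
theorem end4 {μ : ℝ} (D : G4 K ε τ E p U U' M₀ M₀' M₁ M₁') (hμ : 0 < μ) (hμ1 : μ ≤ 1)
    {A B : Fin 2 → ℝ} {θ θ' F F' : ℝ} (hA : ∀ i, |A i| ≤ K) (hB : ∀ i, |B i| ≤ K)
    (hF : |F| ≤ K) (hF' : |F'| ≤ K) (hAB : μ ≤ |A 0 * B 1 - A 1 * B 0|)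
    (hα : |θ + (A 0 * (M₁ 0 1 + F * M₁ 1 1) + A 1 * (M₁ 2 1 + F * M₁ 3 1))| ≤ ε)
    (hα' : |θ' + (B 0 * (M₁ 0 1 + F' * M₁ 1 1) + B 1 * (M₁ 2 1 + F' * M₁ 3 1))| ≤ ε)
    (hθ : |θ| ≤ ε) (hθ' : |θ'| ≤ ε) (i : Fin 4) : |U' i - U i| ≤ 30 * K ^ 5 * ε / μ := by
  have hε := D.eps
  have hK := D.hK
  have hK0 : 0 < K := by linarith
  have a1 := abs_le.mp (D.alp hA hF hα)
  have a2 := abs_le.mp (D.alp hB hF' hα')
  have t1 := abs_le.mp hθ
  have t2 := abs_le.mp hθ'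
  have hε2 : ε ≤ K ^ 2 * ε := by
    have := one_le_pow₀ hK (n := 2)
    nlinarith
  have b1 : |A 0 * M₁' 1 0 + A 1 * M₁' 3 0| ≤ 10 * K ^ 2 * ε := by
    rw [abs_le]
    constructor <;> linarith
  have b2 : |B 0 * M₁' 1 0 + B 1 * M₁' 3 0| ≤ 10 * K ^ 2 * ε := by
    rw [abs_le]
    constructor <;> linarith
  have crm : ∀ x y P Q : ℝ, |x| ≤ K → |y| ≤ K → |P| ≤ 10 * K ^ 2 * ε → |Q| ≤ 10 * K ^ 2 * ε →
      |x * P - y * Q| ≤ 20 * K ^ 3 * ε := by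
    intro x y P Q h1 h2 h3 h4
    have g1 : |x * P| ≤ K * (10 * K ^ 2 * ε) := by
      rw [abs_mul]
      exact mul_le_mul h1 h3 (abs_nonneg _) hK0.le
    have g2 : |y * Q| ≤ K * (10 * K ^ 2 * ε) := by
      rw [abs_mul]
      exact mul_le_mul h2 h4 (abs_nonneg _) hK0.le
    refine (abs_sub _ _).trans ?_
    have : K * (10 * K ^ 2 * ε) = 10 * K ^ 3 * ε := by ring
    linarith
  obtain ⟨T, hT⟩ : ∃ T, T = K ^ 3 * ε / μ := ⟨_, rfl⟩
  have hT0 : 0 ≤ T := by rw [hT]; positivity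
  have hT1 : K ^ 3 * ε ≤ T := by
    rw [hT, le_div_iff₀ hμ]
    have : 0 ≤ K ^ 3 * ε := by positivity
    nlinarith
  have c : ∀ x : ℝ, |(A 0 * B 1 - A 1 * B 0) * x| ≤ 20 * K ^ 3 * ε → |x| ≤ 20 * T := by
    intro x hx
    have e : 20 * T = 20 * K ^ 3 * ε / μ := by rw [hT]; ring
    rw [e, le_div_iff₀ hμ]
    rw [abs_mul] at hx
    have := mul_le_mul_of_nonneg_right hAB (abs_nonneg x)
    linarith
  have z1 : |M₁' 1 0| ≤ 20 * T := c _ (by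
    have e : (A 0 * B 1 - A 1 * B 0) * M₁' 1 0 =
        B 1 * (A 0 * M₁' 1 0 + A 1 * M₁' 3 0) - A 1 * (B 0 * M₁' 1 0 + B 1 * M₁' 3 0) := by ring
    rw [e]
    exact crm _ _ _ _ (hB 1) (hA 1) b1 b2)
  have z3 : |M₁' 3 0| ≤ 20 * T := c _ (by
    have e : (A 0 * B 1 - A 1 * B 0) * M₁' 3 0 =
        A 0 * (B 0 * M₁' 1 0 + B 1 * M₁' 3 0) - B 0 * (A 0 * M₁' 1 0 + A 1 * M₁' 3 0) := by ring
    rw [e]
    exact crm _ _ _ _ (hA 0) (hB 0) b2 b1)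
  have hK3 : ε ≤ K ^ 3 * ε := by
    have := one_le_pow₀ hK (n := 3)
    nlinarith
  have hεT : ε ≤ T := hK3.trans hT1
  have z0 : |M₁' 0 1| ≤ 21 * T := by
    have g1 := abs_le.mp D.s1
    have g2 := abs_le.mp z1
    rw [abs_le]
    constructor <;> linarith
  have z2 : |M₁' 2 1| ≤ 21 * T := by
    have g1 := abs_le.mp D.r1
    have g2 := abs_le.mp z3
    rw [abs_le]
    constructor <;> linarith
  have fin : 30 * K ^ 5 * ε / μ = 30 * K ^ 2 * T := by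
    rw [hT]
    ring
  rw [fin]
  have main : ∀ x y : ℝ, |x| ≤ 20 * T → |y| ≤ 21 * T → |x| + |y| ≤ 22 * T →
      |U' i - U i - τ * (x + y * E)| ≤ 5 * K * ε → |U' i - U i| ≤ 30 * K ^ 2 * T := by
    intro x y g1 g2 g3 g4
    have g5 : |x + y * E| ≤ 22 * K * T := by
      have h1 := abs_add_le x (y * E)
      rw [abs_mul] at h1
      have h2 : |y| * |E| ≤ |y| * K := mul_le_mul_of_nonneg_left D.hE (abs_nonneg _)
      have h3 : |x| ≤ |x| * K := by nlinarith [abs_nonneg x]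
      have h4 : (|x| + |y|) * K ≤ 22 * T * K := mul_le_mul_of_nonneg_right g3 hK0.le
      linarith
    have g6 : |τ * (x + y * E)| ≤ K * (22 * K * T) := by
      rw [abs_mul]
      exact mul_le_mul D.hτ g5 (abs_nonneg _) hK0.le
    have g7 := abs_le.mp g6
    have g8 := abs_le.mp g4
    have g9 : 5 * K * ε ≤ 5 * K ^ 2 * T := by
      have h1 : K * ε ≤ K ^ 2 * T := by
        have h2 : K * ε ≤ K * T := mul_le_mul_of_nonneg_left hεT hK0.le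
        have h3 : K * T ≤ K ^ 2 * T := mul_le_mul_of_nonneg_right (by nlinarith) hT0
        linarith
      linarith
    have g10 : K * (22 * K * T) = 22 * K ^ 2 * T := by ring
    have g11 : 0 ≤ K ^ 2 * T := by positivity
    rw [g10] at g7
    rw [abs_le]
    constructor <;> linarith
  fin_cases i
  · exact main (M₁' 0 0) (M₁' 0 1) (D.s0.trans (by linarith)) z0
      (by linarith [D.s0, z0]) (D.dif 0)
  · exact main (M₁' 1 0) (M₁' 1 1) z1 (D.s2.trans (by linarith))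
      (by linarith [D.s2, z1]) (D.dif 1)
  · exact main (M₁' 2 0) (M₁' 2 1) (D.r0.trans (by linarith)) z2
      (by linarith [D.r0, z2]) (D.dif 2)
  · exact main (M₁' 3 0) (M₁' 3 1) z3 (D.r2.trans (by linarith))
      (by linarith [D.r2, z3]) (D.dif 3)

end

end Pool.D2G
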