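import Pool.Agent.H68.OWN.Npt

/-!
# One hop with two keys

`hop_two`: the hop, where the identity holds on the fibres of `G`, and the exact position is full
given a second key `G₂`. `Hkd`, `hkd`: the same with the sizes: if `n` is nonfull given the exact
position, the first digits of the last jet `c` are few bits given `G`.
-/

set_option autoImplicit false

namespace Pool.D2H

open Finset Real
open Pool.Agent.H49.Ent Pool.Agent.H32.Dense Pool.STK Pool.NFD Pool.OWN68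

/-- **The hop, one law, two keys.** -/
theorem hop_two {Ω Λ Γ Γ₂ 𝒞 𝒱 : Type} [Fintype Ω] {p : Ω → ℝ} (hp : IsLaw p) {k M K : ℕ}
    (hk : k = 1 ∨ k = 2) (hM : 1 ≤ M) (L : Ω → Λ) (t : Ω → ℤ) (G : Ω → Γ) (G₂ : Ω → Γ₂)
    (C : Λ → 𝒞) (c : Λ → ℝ)
    (n : Λ → ℤ → ℤ) (Vd : Ω → 𝒱) {m₀ R e V : ℝ} (hm₀ : 0 < m₀) (hmM : m₀ ≤ M) (hR : 1 ≤ R)
    (he : 0 ≤ e) (ht : ∀ ω, 0 < p ω → |t ω| ≤ (M : ℤ))
    (hG : ∀ ω ω', 0 < p ω → 0 < p ω' → G ω = G ω' → C (L ω) = C (L ω') ∧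
      ∀ τ : ℤ, |τ| ≤ (M : ℤ) → |((n (L ω') τ : ℝ) - n (L ω) τ) -
        (c (L ω') - c (L ω)) * (((τ : ℝ) - t ω) / M) ^ k| ≤ K)
    (hfull : Real.log (2 * M + 1) - e ≤ CH p t L)
    {F eV eX : ℝ} (heV : 0 ≤ eV)
    (hF1 : ∀ r : Ω → ℝ, IsLaw r → (∀ ω, 0 < r ω → 0 < p ω) → H r Vd ≤ F)
    (hF : F - eV ≤ CH p Vd G₂)
    (hX : CH p (fun ω => (n (L ω) (t ω), (t ω, C (L ω)))) G₂ ≤ eX)
    {c₀ η U₀ V₀ : ℝ} {N : ℕ} (hc₀ : 0 < c₀) (hη : 0 < η) (hU₀ : 0 ≤ U₀) (hV₀ : 0 ≤ V₀)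
    (hNF : ∀ E : Ω → Prop, c₀ ≤ law p E True →
      CH (cond p E True) (fun ω => n (L ω) (t ω)) (fun ω => (Vd ω, (t ω, C (L ω)))) ≤ U₀)
    (hNV : ∀ r : Ω → ℝ, IsLaw r → (∀ ω, 0 < r ω → 0 < p ω) →
      CH r (fun ω => n (L ω) (t ω)) (fun ω => (Vd ω, (t ω, C (L ω)))) ≤ V₀)
    (hbig : ((1 + η) * U₀ + (R * c₀ * (1 + η) / η + R / (1 + η) ^ N) * V₀ + Real.log (N + 1) +
      R * (eV + Real.log 2) + R * eX) + R * (3 * e + Real.log 2) +
      Real.log ((2 + 16 * K) * (1 + Real.log (2 * M + 1))) < Real.log m₀)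
    (hV0 : 0 ≤ V) (hV : ∀ q : Ω → ℝ, IsLaw q → (∀ ω, 0 < q ω → 0 < p ω) →
      CH q (fun ω => ⌊c (L ω) / m₀⌋) G ≤ V) :
    CH p (fun ω => ⌊c (L ω) / m₀⌋) G ≤ Real.log 2 + Real.log 5 + 2 / R * V := by
  refine hop_few hp hk hM L t G C c n hm₀ hmM (by linarith) he ht hG hfull
    (U := (1 + η) * U₀ + (R * c₀ * (1 + η) / η + R / (1 + η) ^ N) * V₀ + Real.log (N + 1) +
      R * (eV + Real.log 2) + R * eX) (fun q hq hqR => ?_) hbig hV0 hV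
  have hpos : ∀ ω, 0 < q ω → 0 < p ω := by
    intro ω hω
    by_contra hcon
    have h2 : p ω ≤ 0 := not_lt.mp hcon
    have h3 := hqR ω
    nlinarith
  have h1 := nf_swap hq.nonneg (fun ω => n (L ω) (t ω)) Vd (fun ω => (t ω, C (L ω))) G₂ (F := F)
    ((CH_le_Hu hq Vd _).trans (hF1 q hq hpos))
  have h2 := nf_dens hp hq hR hqR hc₀ hη (fun ω => n (L ω) (t ω))
    (fun ω => (Vd ω, (t ω, C (L ω)))) (L := N) hU₀ hV₀
    (fun A hA => hNF A (by rw [Pb_law]; exact hA)) hNV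
  have h3 := deficit_dens hp hq hR hqR Vd G₂ heV
    (fun r hr hrp => (CH_le_Hu hr Vd G₂).trans (hF1 r hr hrp)) hF
  have h4 := CH_le_mul hp.nonneg hq hqR hpos (fun ω => (n (L ω) (t ω), (t ω, C (L ω)))) G₂
  have h5 : R * CH p (fun ω => (n (L ω) (t ω), (t ω, C (L ω)))) G₂ ≤ R * eX :=
    mul_le_mul_of_nonneg_left hX (by linarith)
  linarith

/-- The data of one hop with two keys. -/
structure Hkd (k K A : ℕ) (h δ c₀ : ℝ) (Q : ℕ) {Ω Λ Γ Γ₂ 𝒞 𝒱 : Type} [Fintype Ω] (p : Ω → ℝ)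
    (L : Ω → Λ) (t : Ω → ℤ) (G : Ω → Γ) (G₂ : Ω → Γ₂) (C : Λ → 𝒞) (c : Λ → ℝ) (n : Λ → ℤ → ℤ)
    (Vd : Ω → 𝒱) (M : ℕ) (F : ℝ) : Prop where
  law : IsLaw p
  M1 : 2 ^ Q ≤ M
  M2 : M ≤ 2 ^ (A * Q)
  lK : Real.log (2 + 16 * K) ≤ δ * Q
  tM : ∀ ω, 0 < p ω → |t ω| ≤ (M : ℤ)
  rel : ∀ ω ω', 0 < p ω → 0 < p ω' → G ω = G ω' → C (L ω) = C (L ω') ∧
    ∀ τ : ℤ, |τ| ≤ (M : ℤ) → |((n (L ω') τ : ℝ) - n (L ω) τ) -
      (c (L ω') - c (L ω)) * (((τ : ℝ) - t ω) / M) ^ k| ≤ K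
  tfull : Real.log (2 * M + 1) - δ * Q ≤ CH p t L
  vF : ∀ r : Ω → ℝ, IsLaw r → (∀ ω, 0 < r ω → 0 < p ω) → H r Vd ≤ F
  vfull : F - δ * Q ≤ CH p Vd G₂
  nG : CH p (fun ω => (n (L ω) (t ω), (t ω, C (L ω)))) G₂ ≤ δ * Q
  nf : ∀ E : Ω → Prop, c₀ ≤ Pool.Agent.H49.Ent.law p E True →
    CH (cond p E True) (fun ω => n (L ω) (t ω)) (fun ω => (Vd ω, (t ω, C (L ω)))) ≤
      (1 - h) * (Q * Real.log 2) + δ * Q
  nv : ∀ r : Ω → ℝ, IsLaw r → (∀ ω, 0 < r ω → 0 < p ω) →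
    CH r (fun ω => n (L ω) (t ω)) (fun ω => (Vd ω, (t ω, C (L ω)))) ≤ 2 * Q
  cv : ∀ r : Ω → ℝ, IsLaw r → (∀ ω, 0 < r ω → 0 < p ω) → ∀ Q' ≤ Q,
    CH r (fun ω => ⌊c (L ω) / 2 ^ (Q - Q')⌋) G ≤ 2 * Q

/-- **The first digits of the last jet are few bits given the key.** -/
theorem hkd {k : ℕ} (hk : k = 1 ∨ k = 2) {h : ℝ} (hh : 0 < h) (hh1 : h ≤ 1) {ε : ℝ}
    (hε : 0 < ε) : ∃ δ : ℝ, 0 < δ ∧ ∃ c₀ : ℝ, 0 < c₀ ∧ ∀ A : ℕ, ∃ Q₀ : ℕ, ∀ Q ≥ Q₀, ∀ Q' : ℕ,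
    (Q' : ℝ) ≤ h / 8 * Q →
    ∀ (K : ℕ) (Ω Λ Γ Γ₂ 𝒞 𝒱 : Type) [Fintype Ω] (p : Ω → ℝ) (L : Ω → Λ) (t : Ω → ℤ) (G : Ω → Γ)
      (G₂ : Ω → Γ₂) (C : Λ → 𝒞) (c : Λ → ℝ) (n : Λ → ℤ → ℤ) (Vd : Ω → 𝒱) (M : ℕ) (F : ℝ),
      Hkd k K A h δ c₀ Q p L t G G₂ C c n Vd M F →
        CH p (fun ω => ⌊c (L ω) / 2 ^ (Q - Q')⌋) G ≤ ε * Q := by
  have hln : 0 < Real.log 2 := Real.log_pos (by norm_num)
  have hln1 : Real.log 2 ≤ 1 := by
    have := Real.log_two_lt_d9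
    linarith
  have hln2 : (1 : ℝ) / 2 ≤ Real.log 2 := by
    have := Real.log_two_gt_d9
    linarith
  -- the constants
  obtain ⟨R, hRe⟩ : ∃ R : ℝ, R = max 1 (8 / ε) := ⟨_, rfl⟩
  have hR1 : 1 ≤ R := by rw [hRe]; exact le_max_left _ _
  have hR2 : 8 / ε ≤ R := by rw [hRe]; exact le_max_right _ _
  have hR0 : 0 < R := by linarith
  have hRε : 2 / R ≤ ε / 4 := by
    rw [div_le_iff₀ hR0]
    rw [div_le_iff₀ hε] at hR2
    linarith
  obtain ⟨η, hη⟩ : ∃ η : ℝ, η = h / 4 := ⟨_, rfl⟩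
  have hη0 : 0 < η := by rw [hη]; positivity
  have hη1 : η ≤ 1 := by rw [hη]; linarith
  obtain ⟨s, hs⟩ : ∃ s : ℝ, s = h / 4 := ⟨_, rfl⟩
  have hs0 : 0 < s := by rw [hs]; positivity
  obtain ⟨N, hN⟩ : ∃ N : ℕ, 32 * R / s ≤ (1 + η) ^ N := by
    obtain ⟨N, hN⟩ := pow_unbounded_of_one_lt (32 * R / s) (by linarith : (1 : ℝ) < 1 + η)
    exact ⟨N, hN.le⟩
  have hpN : 0 < (1 + η) ^ N := by positivity
  have hN' : R / (1 + η) ^ N * 2 ≤ s / 16 := by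
    rw [div_le_iff₀ hs0] at hN
    rw [div_mul_eq_mul_div, div_le_iff₀ hpN]
    nlinarith
  obtain ⟨δ, hδ⟩ : ∃ δ : ℝ, δ = s / (16 * (3 + 5 * R)) := ⟨_, rfl⟩
  have hδ0 : 0 < δ := by rw [hδ]; positivity
  have hδ4 : (3 + 5 * R) * δ = s / 16 := by
    rw [hδ]
    field_simp
  obtain ⟨c₀, hc₀⟩ : ∃ c₀ : ℝ, c₀ = s * η / (32 * R * (1 + η)) := ⟨_, rfl⟩
  have hc₀0 : 0 < c₀ := by rw [hc₀]; positivity
  have hc₀2 : R * c₀ * (1 + η) / η * 2 ≤ s / 16 := by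
    rw [hc₀]
    refine le_of_eq ?_
    field_simp
    norm_num
  refine ⟨δ, hδ0, c₀, hc₀0, fun A => ?_⟩
  obtain ⟨Q₂, hQ₂⟩ := exists_nat_ge ((Real.log (N + 1) + 2 * R * Real.log 2) / (s / 16))
  obtain ⟨Q₃, hQ₃⟩ := log_small (A := A + 1) (c := s / 16) (by positivity) (by positivity)
  obtain ⟨Q₄, hQ₄⟩ := exists_nat_ge ((Real.log 2 + Real.log 5) / (ε / 2))
  refine ⟨max 1 (max Q₂ (max Q₃ Q₄)), ?_⟩
  intro Q hQ Q' hQ' K Ω Λ Γ Γ₂ 𝒞 𝒱 _ p L t G G₂ C c n Vd M F D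
  have q0 : 1 ≤ Q := (le_max_left _ _).trans hQ
  have q0' := (le_max_right _ _).trans hQ
  have q2 : Q₂ ≤ Q := (le_max_left _ _).trans q0'
  have q3 : Q₃ ≤ Q := (le_max_left _ _).trans ((le_max_right _ _).trans q0')
  have q4 : Q₄ ≤ Q := (le_max_right _ _).trans ((le_max_right _ _).trans q0')
  have hQr : (1 : ℝ) ≤ Q := by exact_mod_cast q0
  have hQ0 : (0 : ℝ) < Q := by linarith
  have hδQ : 0 ≤ δ * Q := by positivity
  have hQQ : Q' ≤ Q := by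
    have h1 : (Q' : ℝ) ≤ Q := by nlinarith
    exact_mod_cast h1
  have hlogm : Real.log ((2 : ℝ) ^ (Q - Q')) = ((Q : ℝ) - Q') * Real.log 2 := by
    rw [Real.log_pow, Nat.cast_sub hQQ]
  have hm : ((2 : ℝ) ^ (Q - Q')) ≤ M := by
    have h1 : (2 : ℕ) ^ (Q - Q') ≤ 2 ^ Q := Nat.pow_le_pow_right (by norm_num) (Nat.sub_le _ _)
    exact_mod_cast h1.trans D.M1
  have r2 : Real.log (N + 1) + 2 * R * Real.log 2 ≤ s / 16 * Q := by
    have h1 : (Real.log (N + 1) + 2 * R * Real.log 2) / (s / 16) ≤ Q :=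
      hQ₂.trans (by exact_mod_cast q2)
    rw [div_le_iff₀ (by positivity)] at h1
    linarith
  have hM1 : (1 : ℝ) ≤ M := by
    have := le_trans Nat.one_le_two_pow D.M1
    exact_mod_cast this
  have hlM : 0 ≤ Real.log (2 * M + 1) := Real.log_nonneg (by linarith)
  have r3 : Real.log ((2 + 16 * K) * (1 + Real.log (2 * M + 1))) ≤ δ * Q + s / 16 * Q := by
    rw [Real.log_mul (by positivity) (by positivity)]
    refine add_le_add D.lK (le_trans ?_ (hQ₃ Q q3))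
    refine Real.log_le_log (by positivity) ?_
    have h1 : (2 * (M : ℝ) + 1) ≤ Real.exp (2 + A * Q) := by
      have h2 : (M : ℝ) ≤ 2 ^ (A * Q) := by exact_mod_cast D.M2
      have h3 : (2 : ℝ) ^ (A * Q) ≤ Real.exp (A * Q) := by
        have e1 : (2 : ℝ) ≤ Real.exp 1 := by
          have := Real.add_one_le_exp (1 : ℝ)
          linarith
        calc (2 : ℝ) ^ (A * Q) ≤ (Real.exp 1) ^ (A * Q) := pow_le_pow_left₀ (by norm_num) e1 _
          _ = Real.exp (A * Q) := by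
            rw [← Real.exp_nat_mul]
            congr 1
            push_cast
            ring
      have h4 : (3 : ℝ) ≤ Real.exp 2 := by
        have := Real.add_one_le_exp (2 : ℝ)
        linarith
      rw [Real.exp_add]
      have h5 : 0 < Real.exp (A * (Q : ℝ)) := Real.exp_pos _
      have h6 : (M : ℝ) ≤ Real.exp (A * Q) := h2.trans h3
      nlinarith
    have h7 : Real.log (2 * M + 1) ≤ 2 + A * Q := by
      have := Real.log_le_log (by linarith) h1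
      rwa [Real.log_exp] at this
    have h8 : (0 : ℝ) ≤ A := Nat.cast_nonneg A
    nlinarith [mul_nonneg h8 hQ0.le]
  have key := hop_two D.law hk (by exact_mod_cast hM1) L t G G₂ C c n Vd
    (m₀ := 2 ^ (Q - Q')) (R := R) (e := δ * Q) (V := 2 * Q)
    (by positivity) hm hR1 hδQ D.tM D.rel D.tfull (F := F) (eV := δ * Q) (eX := δ * Q) hδQ D.vF
    D.vfull D.nG (c₀ := c₀) (η := η) (U₀ := (1 - h) * (Q * Real.log 2) + δ * Q) (V₀ := 2 * Q)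
    (N := N) hc₀0 hη0 (by
      have : 0 ≤ (1 - h) * (Q * Real.log 2) :=
        mul_nonneg (by linarith) (mul_nonneg hQ0.le hln.le)
      linarith) (by linarith) D.nf D.nv (by
      rw [hlogm]
      have b1 : (1 + η) * ((1 - h) * (Q * Real.log 2)) ≤ (1 - 3 * h / 4) * (Q * Real.log 2) := by
        have h1 : 0 ≤ Q * Real.log 2 := mul_nonneg hQ0.le hln.le
        have h2 : (1 + η) * (1 - h) ≤ 1 - 3 * h / 4 := by
          rw [hη]
          nlinarith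
        calc (1 + η) * ((1 - h) * (Q * Real.log 2)) = ((1 + η) * (1 - h)) * (Q * Real.log 2) := by
              ring
          _ ≤ _ := mul_le_mul_of_nonneg_right h2 h1
      have b2 : (1 - h / 8) * (Q * Real.log 2) ≤ ((Q : ℝ) - Q') * Real.log 2 := by
        have h1 : (1 - h / 8) * (Q : ℝ) ≤ (Q : ℝ) - Q' := by linarith
        calc (1 - h / 8) * (Q * Real.log 2) = ((1 - h / 8) * (Q : ℝ)) * Real.log 2 := by ring
          _ ≤ _ := mul_le_mul_of_nonneg_right h1 hln.le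
      have b3 : 5 * h / 8 * (Q * (1 / 2)) ≤ 5 * h / 8 * (Q * Real.log 2) := by
        refine mul_le_mul_of_nonneg_left ?_ (by positivity)
        exact mul_le_mul_of_nonneg_left hln2 hQ0.le
      have b4 : (1 + η) * (δ * Q) + 5 * R * (δ * Q) + δ * Q ≤ s / 16 * Q := by
        have h1 : (1 + η) * δ + 5 * R * δ + δ ≤ s / 16 := by
          have h2 : (1 + η) * δ ≤ 2 * δ :=
            mul_le_mul_of_nonneg_right (by linarith only [hη1]) hδ0.le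
          calc (1 + η) * δ + 5 * R * δ + δ ≤ 2 * δ + 5 * R * δ + δ := by linarith only [h2]
            _ = (3 + 5 * R) * δ := by ring
            _ ≤ s / 16 := hδ4.le
        calc (1 + η) * (δ * Q) + 5 * R * (δ * Q) + δ * Q =
            ((1 + η) * δ + 5 * R * δ + δ) * Q := by ring
          _ ≤ s / 16 * Q := mul_le_mul_of_nonneg_right h1 hQ0.le
      have b5 : (R * c₀ * (1 + η) / η + R / (1 + η) ^ N) * (2 * Q) ≤ (s / 16 + s / 16) * Q := by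
        calc (R * c₀ * (1 + η) / η + R / (1 + η) ^ N) * (2 * Q) =
            (R * c₀ * (1 + η) / η * 2 + R / (1 + η) ^ N * 2) * Q := by ring
          _ ≤ (s / 16 + s / 16) * Q := mul_le_mul_of_nonneg_right (by linarith) hQ0.le
      have b7 : s * Q < 5 * h / 8 * (Q * (1 / 2)) := by
        rw [hs]
        have : 0 < h * Q := by positivity
        linarith
      have b8 : 0 < s * Q := by positivity
      have e1 : (1 + η) * ((1 - h) * (Q * Real.log 2) + δ * Q) =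
          (1 + η) * ((1 - h) * (Q * Real.log 2)) + (1 + η) * (δ * Q) := by ring
      have e2 : R * (δ * Q + Real.log 2) = R * (δ * Q) + R * Real.log 2 := by ring
      have e3 : R * (3 * (δ * Q) + Real.log 2) = 3 * (R * (δ * Q)) + R * Real.log 2 := by ring
      have e4 : 5 * R * (δ * Q) = 5 * (R * (δ * Q)) := by ring
      rw [e1, e2, e3]
      rw [e4] at b4
      linarith)
    (by positivity) (fun q hq hqp => D.cv q hq hqp Q' hQQ)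
  refine key.trans ?_
  have r4 : Real.log 2 + Real.log 5 ≤ ε / 2 * Q := by
    have h1 : (Real.log 2 + Real.log 5) / (ε / 2) ≤ Q := hQ₄.trans (by exact_mod_cast q4)
    rw [div_le_iff₀ (by positivity)] at h1
    linarith
  have r5 : 2 / R * (2 * Q) ≤ ε / 4 * (2 * Q) := mul_le_mul_of_nonneg_right hRε (by positivity)
  linarith

end Pool.D2H
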