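import Pool.Agent.H28.D2.Hop
import Pool.Agent.H18.D2.Aj

/-!
# The hop over the reference line without velocities: one law

`HopN`: as `HopG` of the file `H28/D2/Hop.lean`, but the velocities of the heights and the
coefficients of the gradients are only natural (`K * 2 ^ Q` units of the last digit). `hop_nat`: if
the rows of the own height over the reference line are not full in all blocks, then the number of
the line is few bits given `Y`.
-/

set_option autoImplicit false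

namespace Pool.D2H

open Finset Real MvPolynomial
open Pool.Agent.H49.Ent Pool.Agent.H32.Dense Pool.STK Pool.KA Pool.KSAT Pool.K2S Pool.PB Pool.GEN
open Pool.S6C Pool.LA91
open Pool.OWN68 (opl tw uw CH_pair CH_pis natDegree_opl opl_jet uw_abs tw_abs floor_sub_le
  of_floor_div pj)

variable {m J : ℕ}

/-- **The geometric data of the hop, natural form.** -/
structure HopN (F : Fam m J) (A : F.Ω → Prop) (W r D Q : ℕ) (c : ℕ → Fin m)
    (gp : ℕ → LnT F → Polynomial ℝ) (SV SE SG : ℕ → ℝ) (σ : ℝ) (K : ℕ) {γ : Type}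
    (Y : F.Ω → γ) : Prop extends HopP F A W r D c gp SV SE SG σ K Y where
  nco : ∀ ω, A ω → ∀ l < r, ∀ j, 2 ≤ j →
    σ * |(gp l (slam F W ω)).coeff (j + 1)| ≤ K * 2 ^ Q * SV l ∧
    σ * |(gp l (slam F W ω)).coeff j| ≤ K * 2 ^ Q * SE l
  nat : ∀ ω₀ ω ω', A ω₀ → A ω → A ω' → Y ω = Y ω' →
    cx F W r D c gp SV SE SG (slam F W ω₀) = cx F W r D c gp SV SE SG (slam F W ω) →
    cx F W r D c gp SV SE SG (slam F W ω) = cx F W r D c gp SV SE SG (slam F W ω') →
    σ * |num r (fun l => vp F W (c l) (slam F W ω')) (fun l => gp l (slam F W ω₀)) -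
      num r (fun l => vp F W (c l) (slam F W ω)) (fun l => gp l (slam F W ω₀))| ≤ K * 2 ^ Q
  nvl : ∀ ω ω', A ω → A ω' → Y ω = Y ω' →
    σ * |1 / 2 ^ (W + 1) * (F.d ω' (c r) - F.d ω (c r)) - ∑ l ∈ range r,
      ((gp l (slam F W ω)).derivative.eval (uw F W ω) * (F.x ω' (c l) - F.x ω (c l)) +
        (gp l (slam F W ω)).eval (uw F W ω) *
          (1 / 2 ^ (W + 1) * (F.d ω' (c l) - F.d ω (c l))))| ≤ K * 2 ^ Q

/-- The precise data are natural. -/
theorem HopG.toN {F : Fam m J} {A : F.Ω → Prop} {W r D Q : ℕ} {c : ℕ → Fin m}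
    {gp : ℕ → LnT F → Polynomial ℝ} {SV SE SG : ℕ → ℝ} {σ : ℝ} {K : ℕ} {γ : Type}
    {Y : F.Ω → γ} (H : HopG F A W r D Q c gp SV SE SG σ K Y) :
    HopN F A W r D Q c gp SV SE SG σ K Y where
  toHopP := H.toHopP
  nco := fun ω hω l hl j hj => by
    have h1 : (1 : ℝ) ≤ 2 ^ Q := one_le_pow₀ (by norm_num)
    have h2 := H.SV0 l hl
    have h3 : 0 < SE l := h2.trans_le (H.SVE l hl)
    have hK : (0 : ℝ) ≤ K := Nat.cast_nonneg K
    have h4 : (K : ℝ) ≤ K * 2 ^ Q := le_mul_of_one_le_right hK h1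
    obtain ⟨a, b⟩ := H.big ω hω l hl j hj
    exact ⟨a.trans (mul_le_mul_of_nonneg_right h4 h2.le),
      b.trans (mul_le_mul_of_nonneg_right h4 h3.le)⟩
  nat := H.nat
  nvl := fun ω ω' hω hω' e => (H.hvl ω ω' hω hω' e).trans
    (le_mul_of_one_le_right (Nat.cast_nonneg K) (one_le_pow₀ (by norm_num)))

section pair

variable {F : Fam m J} {A : F.Ω → Prop} {W r D Q : ℕ} {c : ℕ → Fin m}
  {gp : ℕ → LnT F → Polynomial ℝ} {SV SE SG : ℕ → ℝ} {σ : ℝ} {K : ℕ} {γ : Type} {Y : F.Ω → γ}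

/-- The velocities of two samples of one fibre with the same context. -/
theorem HopN.pair (H : HopN F A W r D Q c gp SV SE SG σ K Y) {ω₀ ω ω' : F.Ω}
    (hω : A ω) (hω' : A ω') (hY : Y ω = Y ω')
    (e₀ : cx F W r D c gp SV SE SG (slam F W ω₀) = cx F W r D c gp SV SE SG (slam F W ω)) :
    σ * |(hR F W r c gp ω₀ (slam F W ω')).derivative.eval (uw F W ω) -
      (hR F W r c gp ω₀ (slam F W ω)).derivative.eval (uw F W ω)| ≤
        K * (1 + r * (D + 1) ^ 2) * 2 ^ Q := by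
  have hT := (H.TZ ω ω' hω hω' hY).1
  have hu := uw_abs F W ω
  have hσ := H.σ0
  have hK0 : (0 : ℝ) ≤ K := Nat.cast_nonneg K
  have hD0 : (0 : ℝ) ≤ D := Nat.cast_nonneg D
  have hr0 : (0 : ℝ) ≤ r := Nat.cast_nonneg r
  have hQ1 : (1 : ℝ) ≤ 2 ^ Q := one_le_pow₀ (by norm_num)
  -- the products
  have hprod : ∀ l < r, ∀ (g d B : ℝ), 0 ≤ B → |g| ≤ B * (1 / SG l) → SV l * |d| ≤ K →
      σ * |g * d| ≤ B * K := by
    intro l hl g d B hB hg hd
    have h1 := H.SV0 l hl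
    have h2 := H.SG0 l hl
    have h3 : |d| ≤ K / SV l := by
      rw [le_div_iff₀ h1]
      linarith
    rw [abs_mul]
    calc σ * (|g| * |d|) ≤ (SG l * SV l) * ((B * (1 / SG l)) * (K / SV l)) :=
          mul_le_mul (H.σG l hl) (mul_le_mul hg h3 (abs_nonneg _) (by positivity))
            (by positivity) (by positivity)
      _ = B * K := by field_simp
  rw [hR_der H.hW ω₀ hT]
  have h1 := H.nvl ω ω' hω hω' hY
  have e1 : 1 / 2 ^ (W + 1) * (F.d ω' (c r) - F.d ω (c r)) - ∑ l ∈ range r,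
      ((gp l (slam F W ω₀)).derivative.eval (uw F W ω) * (F.x ω' (c l) - F.x ω (c l)) +
      (gp l (slam F W ω₀)).eval (uw F W ω) *
        (1 / 2 ^ (W + 1) * (F.d ω' (c l) - F.d ω (c l)))) =
      (1 / 2 ^ (W + 1) * (F.d ω' (c r) - F.d ω (c r)) - ∑ l ∈ range r,
      ((gp l (slam F W ω)).derivative.eval (uw F W ω) * (F.x ω' (c l) - F.x ω (c l)) +
      (gp l (slam F W ω)).eval (uw F W ω) *
        (1 / 2 ^ (W + 1) * (F.d ω' (c l) - F.d ω (c l))))) -
      ∑ l ∈ range r, (((gp l (slam F W ω₀)).derivative.eval (uw F W ω) -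
        (gp l (slam F W ω)).derivative.eval (uw F W ω)) * (F.x ω' (c l) - F.x ω (c l)) +
        ((gp l (slam F W ω₀)).eval (uw F W ω) - (gp l (slam F W ω)).eval (uw F W ω)) *
        (1 / 2 ^ (W + 1) * (F.d ω' (c l) - F.d ω (c l)))) := by
    simp only [sub_mul, Finset.sum_sub_distrib, Finset.sum_add_distrib]
    ring
  rw [e1]
  have h2 : σ * |∑ l ∈ range r, (((gp l (slam F W ω₀)).derivative.eval (uw F W ω) -
        (gp l (slam F W ω)).derivative.eval (uw F W ω)) * (F.x ω' (c l) - F.x ω (c l)) +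
        ((gp l (slam F W ω₀)).eval (uw F W ω) - (gp l (slam F W ω)).eval (uw F W ω)) *
        (1 / 2 ^ (W + 1) * (F.d ω' (c l) - F.d ω (c l))))| ≤
      r * (((D + 1) * D) * K + (D + 1) * K) := by
    refine (mul_le_mul_of_nonneg_left (Finset.abs_sum_le_sum_abs _ _) hσ).trans ?_
    rw [Finset.mul_sum]
    refine (Finset.sum_le_sum (g := fun _ => ((D + 1) * D) * (K : ℝ) + (D + 1) * K)
      fun l hl => ?_).trans (le_of_eq ?_)
    · have hl' := Finset.mem_range.1 hl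
      refine (mul_le_mul_of_nonneg_left (abs_add_le _ _) hσ).trans ?_
      rw [mul_add]
      refine add_le_add ?_ ?_
      · refine hprod l hl' _ _ ((D + 1) * D) (by positivity) ?_ ?_
        · have := (gp_near H.toHopP e₀ hl' hu).2
          rwa [mul_assoc]
        · rw [abs_sub_comm]
          exact H.pos ω ω' hω hω' hY l hl'
      · refine hprod l hl' _ _ (D + 1) (by positivity) (gp_near H.toHopP e₀ hl' hu).1 ?_
        have h5 := H.vel ω ω' hω hω' hY l hl'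
        rw [← mul_sub] at h5
        refine le_trans ?_ h5
        rw [abs_mul, abs_mul, abs_sub_comm (F.d ω' (c l))]
        exact mul_le_mul_of_nonneg_right (H.SVE l hl') (by positivity)
    · rw [Finset.sum_const, Finset.card_range, nsmul_eq_mul]
  refine (mul_le_mul_of_nonneg_left (abs_sub _ _) hσ).trans ?_
  rw [mul_add]
  have h4 : (K : ℝ) * (1 + r * (D + 1) ^ 2) * 2 ^ Q = K * 2 ^ Q +
      (r * (((D + 1) * D) * K + (D + 1) * K)) * 2 ^ Q := by
    ring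
  have h5 : (r : ℝ) * (((D + 1) * D) * K + (D + 1) * K) ≤
      (r * (((D + 1) * D) * K + (D + 1) * K)) * 2 ^ Q :=
    le_mul_of_one_le_right (by positivity) hQ1
  rw [h4]
  linarith

/-- The coefficients of the difference of two own heights of the same context. -/
theorem HopN.coef (H : HopN F A W r D Q c gp SV SE SG σ K Y) {ω₀ : F.Ω} (h₀ : A ω₀)
    {s s' : LnT F}
    (e : cx F W r D c gp SV SE SG s = cx F W r D c gp SV SE SG s') (j : ℕ) (hj : 3 ≤ j) :
    σ * |(hR F W r c gp ω₀ s').coeff j - (hR F W r c gp ω₀ s).coeff j| ≤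
      r * (2 * K) * 2 ^ Q := by
  have hσ := H.σ0
  have hK0 : (0 : ℝ) ≤ K := Nat.cast_nonneg K
  obtain ⟨i, rfl⟩ : ∃ i, j = i + 2 := ⟨j - 2, by omega⟩
  have e1 : (hR F W r c gp ω₀ s').coeff (i + 2) - (hR F W r c gp ω₀ s).coeff (i + 2) =
      (hgt r (vp F W (c r) s') (vp F W (c r) s) (fun l => vp F W (c l) s')
        (fun l => vp F W (c l) s) (fun l => gp l (slam F W ω₀))).coeff (i + 2) := by
    have := hgt_sub r (vp F W (c r) s) (vp F W (c r) s') (vp F W (c r) (slam F W ω₀))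
      (fun l => vp F W (c l) s) (fun l => vp F W (c l) s')
      (fun l => vp F W (c l) (slam F W ω₀)) (fun l => gp l (slam F W ω₀))
    unfold hR
    rw [← Polynomial.coeff_sub, this]
    rfl
  rw [e1, hgt_coeff (natDegree_vp F W _ _) (natDegree_vp F W _ _)
    (fun _ => natDegree_vp F W _ _) (fun _ => natDegree_vp F W _ _), abs_neg]
  refine (mul_le_mul_of_nonneg_left (Finset.abs_sum_le_sum_abs _ _) hσ).trans ?_
  rw [Finset.mul_sum]
  refine (Finset.sum_le_sum (g := fun _ => 2 * (K : ℝ) * 2 ^ Q) fun l hl => ?_).trans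
    (le_of_eq ?_)
  · have hl' := Finset.mem_range.1 hl
    obtain ⟨a1, a2, -⟩ := cx_near H.toHopP e hl'
    have b1 := (H.nco ω₀ h₀ l hl' (i + 1) (by omega)).1
    have b2 := (H.nco ω₀ h₀ l hl' (i + 1) (by omega)).2
    have h1 := H.SV0 l hl'
    have h2 : 0 < SE l := lt_of_lt_of_le h1 (H.SVE l hl')
    refine (mul_le_mul_of_nonneg_left (abs_add_le _ _) hσ).trans ?_
    rw [mul_add]
    have c1 : σ * |(gp l (slam F W ω₀)).coeff (i + 2) *
        ((vp F W (c l) s').coeff 0 - (vp F W (c l) s).coeff 0)| ≤ K * 2 ^ Q := by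
      rw [abs_mul, ← mul_assoc, abs_sub_comm]
      calc σ * |(gp l (slam F W ω₀)).coeff (i + 2)| *
          |(vp F W (c l) s).coeff 0 - (vp F W (c l) s').coeff 0|
          ≤ (K * 2 ^ Q * SV l) * (1 / SV l) := mul_le_mul b1 a1 (abs_nonneg _) (by positivity)
        _ = K * 2 ^ Q := by field_simp
    have c2 : σ * |(gp l (slam F W ω₀)).coeff (i + 1) *
        ((vp F W (c l) s').coeff 1 - (vp F W (c l) s).coeff 1)| ≤ K * 2 ^ Q := by
      rw [abs_mul, ← mul_assoc, abs_sub_comm]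
      calc σ * |(gp l (slam F W ω₀)).coeff (i + 1)| *
          |(vp F W (c l) s).coeff 1 - (vp F W (c l) s').coeff 1|
          ≤ (K * 2 ^ Q * SE l) * (1 / SE l) := mul_le_mul b2 a2 (abs_nonneg _) (by positivity)
        _ = K * 2 ^ Q := by field_simp
    linarith
  · rw [Finset.sum_const, Finset.card_range, nsmul_eq_mul]
    ring

end pair

/-- A number of a line from the coefficient of order two. -/
theorem nb_coeff (F : Fam m J) (W r D : ℕ) (c : ℕ → Fin m) (gp : ℕ → LnT F → Polynomial ℝ)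
    (SV SE SG : ℕ → ℝ) (σ : ℝ) {A : F.Ω → Prop} {ω : F.Ω} (hω : A ω) :
    ∃ κ : ℝ, ∀ ν : F.Ω, cx F W r D c gp SV SE SG (slam F W ν) =
        cx F W r D c gp SV SE SG (slam F W ω) →
      (Polynomial.C σ * hL F W r D c gp SV SE SG A (slam F W ν)).coeff 2 =
        -(σ * nb F W r D c gp SV SE SG A (slam F W ν)) + κ := by
  obtain ⟨ω₀, g1, g2, g3⟩ := rfo_spec (F := F) (w := W) (r := r) (D := D) (c := c) (gp := gp)
      (SV := SV) (SE := SE) (SG := SG) (A := A) hω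
  refine ⟨σ * num r (fun l => vp F W (c l) (slam F W ω₀)) (fun l => gp l (slam F W ω₀)),
    fun ν hν => ?_⟩
  rw [Polynomial.coeff_C_mul]
  unfold hL nb
  rw [hν, g1]
  change σ * (hR F W r c gp ω₀ (slam F W ν)).coeff 2 = -(σ * num r
    (fun l => vp F W (c l) (slam F W ν)) (fun l => gp l (slam F W ω₀))) + _
  unfold hR
  rw [hgt_two (natDegree_vp F W _ _) (natDegree_vp F W _ _)
    (fun _ => natDegree_vp F W _ _) (fun _ => natDegree_vp F W _ _)]
  ring

/-- **The hop over the reference line: one law, natural data.** -/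
theorem hop_nat (r D : ℕ) (hD : 1 ≤ D) {h : ℝ} (hh : 0 < h) (hh1 : h ≤ 1) {ε : ℝ}
    (hε : 0 < ε) :
    ∃ δ : ℝ, 0 < δ ∧ ∃ c₀ : ℝ, 0 < c₀ ∧ ∃ N₀ : ℕ, 0 < N₀ ∧
    ∃ C : ℕ, ∀ {w q : ℝ} (_ : 0 ≤ w) (_ : 0 < q) (_ : w + q ≤ 1),
    ∃ J₀ : ℕ, ∀ J ≥ J₀, ∀ {m : ℕ} (F : Fam m J) (A : F.Ω → Prop) (_ : 0 < Pe F.p A)
      {c : ℕ → Fin m} {gp : ℕ → LnT F → Polynomial ℝ} {SV SE SG : ℕ → ℝ} {σ : ℝ} {K : ℕ}
      {γ : Type} {Y : F.Ω → γ},
    HopN F A ⌊w * J⌋₊ r D ⌊q * J⌋₊ c gp SV SE SG σ K Y →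
    C * Real.log (C * (K + 1)) ≤ δ * q * J →
    (J : ℝ) * Real.log 2 - δ * q * J ≤
      CH (Pool.Agent.H49.Ent.cond F.p A True) F.T (fun ω => (F.l ω, F.Z ω)) →
    (∀ B : F.Ω → Prop, Sub B A → c₀ * Pe F.p A ≤ Pe F.p B → ∀ i j : ℕ, i ≤ j → j ≤ N₀ →
      CH (Pool.Agent.H49.Ent.cond F.p B True)
        (fun ω => ⌊σ * (hL F ⌊w * J⌋₊ r D c gp SV SE SG A (slam F ⌊w * J⌋₊ ω)).eval
          (uw F ⌊w * J⌋₊ ω) / 2 ^ ((q * i / N₀) * J)⌋)
        (fun ω => (⌊σ * (hL F ⌊w * J⌋₊ r D c gp SV SE SG A (slam F ⌊w * J⌋₊ ω)).eval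
          (uw F ⌊w * J⌋₊ ω) / 2 ^ ((q * j / N₀) * J)⌋,
          (cx F ⌊w * J⌋₊ r D c gp SV SE SG (slam F ⌊w * J⌋₊ ω), F.W ω))) ≤
        ((1 - h) * (q * j / N₀ - q * i / N₀) * Real.log 2 + δ * q) * J) →
    CH (Pool.Agent.H49.Ent.cond F.p A True)
      (fun ω => (cx F ⌊w * J⌋₊ r D c gp SV SE SG (slam F ⌊w * J⌋₊ ω),
        ⌊σ * nb F ⌊w * J⌋₊ r D c gp SV SE SG A (slam F ⌊w * J⌋₊ ω)⌋)) Y ≤ ε * q * J := by
  obtain ⟨δ, hδ, c₀, hc₀, N₀, hN₀, Hp⟩ := Pool.AJ18.all_jets (D + 1) (by omega) hh hh1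
    (ε := ε / 4) (by positivity)
  obtain ⟨δ', hδ', hδδ, hδε⟩ : ∃ δ' : ℝ, 0 < δ' ∧ δ' ≤ δ ∧ δ' ≤ ε / 4 :=
    ⟨min δ (ε / 4), lt_min hδ (by positivity), min_le_left _ _, min_le_right _ _⟩
  refine ⟨δ', hδ', c₀, hc₀, N₀, hN₀, ?_⟩
  obtain ⟨C₁, hC₁, Hder⟩ := Pool.OWN68.der_small (D + 1)
  obtain ⟨C₂, hC₂⟩ : ∃ C₂ : ℝ, C₂ = (1 + r * (D + 1) ^ 2) + C₁ * (r * 2 + 1) + 2 :=
    ⟨_, rfl⟩
  have hr0 : (0 : ℝ) ≤ r := Nat.cast_nonneg r
  have hD0 : (0 : ℝ) ≤ D := Nat.cast_nonneg D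
  have hC20 : 2 ≤ C₂ := by
    rw [hC₂]
    have : 0 ≤ (r : ℝ) * (D + 1) ^ 2 := by positivity
    have : 0 ≤ C₁ * ((r : ℝ) * 2 + 1) := by positivity
    linarith
  obtain ⟨C, hC⟩ := exists_nat_ge (max ((r : ℝ) * (D + 3) + 1) (5 * C₂ + 5))
  have hCa : (r : ℝ) * (D + 3) + 1 ≤ C := (le_max_left _ _).trans hC
  have hCb : 5 * C₂ + 5 ≤ C := (le_max_right _ _).trans hC
  refine ⟨C, ?_⟩
  intro w q hw hq hwq
  obtain ⟨J₀, HJ⟩ := Hp hw hq hwq
  obtain ⟨J₁, hJ₁⟩ := exists_nat_ge (Real.log 9 / (ε / 4 * q))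
  refine ⟨max J₀ J₁, ?_⟩
  intro J hJ m F A hA c gp SV SE SG σ K γ Y H hK hT hrow
  have hJ0 : J₀ ≤ J := (le_max_left _ _).trans hJ
  have hJ1 : (J₁ : ℝ) ≤ J := by exact_mod_cast (le_max_right _ _).trans hJ
  have hJr : (0 : ℝ) ≤ J := Nat.cast_nonneg J
  have hK0 : (0 : ℝ) ≤ K := Nat.cast_nonneg K
  have hσ := H.σ0
  obtain ⟨W, hW⟩ : ∃ W : ℕ, W = ⌊w * J⌋₊ := ⟨_, rfl⟩
  obtain ⟨Q, hQ⟩ : ∃ Q : ℕ, Q = ⌊q * J⌋₊ := ⟨_, rfl⟩
  rw [← hW, ← hQ] at H
  rw [← hW] at hrow ⊢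
  obtain ⟨p, hp⟩ : ∃ p : F.Ω → ℝ, p = Pool.Agent.H49.Ent.cond F.p A True := ⟨_, rfl⟩
  have hpl : IsLaw p := by
    rw [hp]
    exact isLaw_cond F.isLaw hA
  have h0 := hpl.nonneg
  have hpA : ∀ ω, 0 < p ω → A ω := fun ω hω => by
    rw [hp] at hω
    exact of_cond_pos hω
  have hctx := H.ctx hA
  rw [← hp] at hctx hT ⊢
  -- one number
  obtain ⟨lg, hlg⟩ : ∃ lg : ℝ, lg = Real.log (C * (K + 1)) := ⟨_, rfl⟩
  have hC0 : (0 : ℝ) ≤ C := Nat.cast_nonneg C
  have hC1 : (1 : ℝ) ≤ C := by linarith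
  have hlg0 : 0 ≤ lg := by
    rw [hlg]
    refine Real.log_nonneg ?_
    nlinarith
  have hlg1 : Real.log (2 * ((2 * K : ℕ) + 1) + 1) ≤ lg := by
    rw [hlg]
    refine Real.log_le_log (by positivity) ?_
    push_cast
    nlinarith
  obtain ⟨K₂, hK₂⟩ : ∃ K₂ : ℕ, K₂ = ⌈C₂ * K⌉₊ := ⟨_, rfl⟩
  have hK2a : C₂ * K ≤ K₂ := by
    rw [hK₂]
    exact Nat.le_ceil _
  have hK2b : (K₂ : ℝ) ≤ C₂ * K + 1 := by
    rw [hK₂]
    exact (Nat.ceil_lt_add_one (by positivity)).le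
  have hlg2 : Real.log (2 * ((K₂ + 1 : ℕ) : ℝ) + 1) ≤ lg := by
    rw [hlg]
    refine Real.log_le_log (by positivity) ?_
    push_cast
    nlinarith
  obtain ⟨cs, hcs⟩ : ∃ cs : F.Ω → Cx F r D, cs = fun ω => cx F W r D c gp SV SE SG (slam F W ω) :=
    ⟨_, rfl⟩
  obtain ⟨R, hRe⟩ : ∃ R : LnT F → Polynomial ℝ, R = fun s => Polynomial.C σ *
      hL F W r D c gp SV SE SG A s := ⟨_, rfl⟩
  have hRdeg : ∀ x, (R x).natDegree ≤ D + 1 := fun x => by
    rw [hRe]
    exact (Polynomial.natDegree_C_mul_le _ _).trans (natDegree_hL H.deg A x)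
  have hc1 : CH p cs Y ≤ (r * (D + 3)) * lg := by
    rw [hcs]
    refine hctx.trans (mul_le_mul_of_nonneg_left hlg1 (by positivity))
  have h2Q : (0 : ℝ) < 2 ^ Q := by positivity
  -- the pairs
  have hpair : ∀ ω ω', A ω → A ω' → Y ω = Y ω' → cs ω = cs ω' → ∃ f : Polynomial ℝ,
      f = R (slam F W ω') - R (slam F W ω) ∧ f.natDegree ≤ D + 1 ∧
      |f.eval (uw F W ω)| ≤ K * (1 + r * (D + 1) ^ 2) ∧
      |f.derivative.eval (uw F W ω)| ≤ K * (1 + r * (D + 1) ^ 2) * 2 ^ Q ∧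
      (∀ j, 2 ≤ j → |f.coeff j| ≤ (r * 2 + 1) * K * 2 ^ Q) := by
    intro ω ω' hω hω' hY e
    obtain ⟨ω₀, g1, g2, g3⟩ := rfo_spec (F := F) (w := W) (r := r) (D := D) (c := c) (gp := gp)
      (SV := SV) (SE := SE) (SG := SG) (A := A) hω
    rw [hcs] at e
    dsimp only at e
    have e1 : R (slam F W ω) = Polynomial.C σ * hR F W r c gp ω₀ (slam F W ω) := by
      rw [hRe]
      dsimp only
      unfold hL
      rw [g1]
      rfl
    have e2 : R (slam F W ω') = Polynomial.C σ * hR F W r c gp ω₀ (slam F W ω') := by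
      rw [hRe]
      dsimp only
      unfold hL
      rw [← e, g1]
      rfl
    refine ⟨_, rfl, (Polynomial.natDegree_sub_le _ _).trans (max_le (hRdeg _) (hRdeg _)), ?_⟩
    have p1 := H.toHopP.pair hω hω' hY g3
    have p2 := H.pair hω hω' hY g3
    have p3 := H.coef g2 e
    have p4 := H.nat ω₀ ω ω' g2 hω hω' hY g3 e
    rw [e1, e2, ← mul_sub]
    refine ⟨?_, ?_, fun j hj => ?_⟩
    · rw [Polynomial.eval_mul, Polynomial.eval_C, Polynomial.eval_sub, abs_mul, abs_of_nonneg hσ]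
      exact p1
    · rw [Polynomial.derivative_C_mul, Polynomial.eval_mul, Polynomial.eval_C,
        Polynomial.derivative_sub, Polynomial.eval_sub, abs_mul, abs_of_nonneg hσ]
      exact p2
    · rw [Polynomial.coeff_C_mul, Polynomial.coeff_sub, abs_mul, abs_of_nonneg hσ]
      have hKQ : 0 ≤ (K : ℝ) * 2 ^ Q := by positivity
      have hrKQ : 0 ≤ (r : ℝ) * (K * 2 ^ Q) := by positivity
      have e5 : ((r : ℝ) * 2 + 1) * K * 2 ^ Q = 2 * (r * (K * 2 ^ Q)) + K * 2 ^ Q := by ring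
      rw [e5]
      rcases hj.lt_or_eq with h3 | h3
      · refine (p3 j h3).trans ?_
        have e6 : (r : ℝ) * (2 * K) * 2 ^ Q = 2 * (r * (K * 2 ^ Q)) := by ring
        rw [e6]
        linarith
      · rw [← h3, hR_two, abs_neg]
        refine p4.trans ?_
        linarith
  have hCr : (1 + (r : ℝ) * (D + 1) ^ 2) ≤ C₂ := by
    rw [hC₂]
    have : 0 ≤ C₁ * ((r : ℝ) * 2 + 1) := by positivity
    linarith
  have hCd : C₁ * ((r : ℝ) * 2 + 1) ≤ C₂ := by
    rw [hC₂]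
    have : 0 ≤ (r : ℝ) * (D + 1) ^ 2 := by positivity
    linarith
  have hKK : ∀ x : ℝ, x ≤ C₂ * K → x ≤ K₂ := fun x hx => hx.trans hK2a
  -- the height
  have hj0 : CH p (fun ω => ⌊pj F R W 0 ω⌋) Y ≤ (r * (D + 3) + 1) * lg := by
    have s1 := CH_step h0 (fun ω => ⌊pj F R W 0 ω⌋) cs Y
    have s2 : CH p (fun ω => ⌊pj F R W 0 ω⌋) (fun ω => (cs ω, Y ω)) ≤ lg := by
      refine le_trans (CH_pair hpl _ _ (D := K₂ + 1) fun ω ω' hω hω' e => ?_) hlg2
      obtain ⟨e1, e2⟩ := Prod.ext_iff.mp e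
      dsimp only at e1 e2
      obtain ⟨f, f0, f1, f2, f3, f4⟩ := hpair ω ω' (hpA ω hω) (hpA ω' hω') e2 e1
      refine floor_sub_le ?_
      have hT' := uw_eq (W := W) (H.TZ ω ω' (hpA ω hω) (hpA ω' hω') e2).1
      have e3 : pj F R W 0 ω - pj F R W 0 ω' = -(f.eval (uw F W ω)) := by
        unfold pj
        rw [f0, ← hT', Polynomial.eval_sub, Function.iterate_zero, id, id]
        ring
      rw [e3, abs_neg]
      refine f2.trans (hKK _ ?_)
      rw [mul_comm]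
      exact mul_le_mul_of_nonneg_right hCr hK0
    nlinarith [s1, s2, hc1]
  -- the natural jets
  obtain ⟨E, hE⟩ : ∃ E : ℝ, E = 2 ^ (q * J) := ⟨_, rfl⟩
  have hE0 : 0 < E := by
    rw [hE]
    exact Real.rpow_pos_of_pos (by norm_num) _
  have hQE : (2 : ℝ) ^ Q ≤ E := by
    rw [hE, ← Real.rpow_natCast]
    refine Real.rpow_le_rpow_of_exponent_le (by norm_num) ?_
    rw [hQ]
    exact Nat.floor_le (by positivity)
  have hjk : ∀ j, j ≠ 0 → CH p (fun ω => ⌊pj F R W j ω / E⌋) Y ≤ (r * (D + 3) + 1) * lg := by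
    intro j hj
    have s1 := CH_step h0 (fun ω => ⌊pj F R W j ω / E⌋) cs Y
    have s2 : CH p (fun ω => ⌊pj F R W j ω / E⌋) (fun ω => (cs ω, Y ω)) ≤ lg := by
      refine le_trans (CH_pair hpl _ _ (D := K₂ + 1) fun ω ω' hω hω' e => ?_) hlg2
      obtain ⟨e1, e2⟩ := Prod.ext_iff.mp e
      dsimp only at e1 e2
      obtain ⟨f, f0, f1, f2, f3, f4⟩ := hpair ω ω' (hpA ω hω) (hpA ω' hω') e2 e1
      refine floor_sub_le ?_
      have hT' := uw_eq (W := W) (H.TZ ω ω' (hpA ω hω) (hpA ω' hω') e2).1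
      have e3 : pj F R W j ω / E - pj F R W j ω' / E =
          -((Polynomial.derivative^[j] f).eval (uw F W ω)) / E := by
        unfold pj
        rw [f0, ← hT', Polynomial.iterate_derivative_sub, Polynomial.eval_sub]
        ring
      rw [e3, abs_div, abs_neg, abs_of_pos hE0, div_le_iff₀ hE0]
      refine le_trans ?_ (mul_le_mul_of_nonneg_left hQE (Nat.cast_nonneg K₂))
      rcases Nat.lt_or_ge 1 j with hj2 | hj2
      · refine (Hder f j _ _ f1 (uw_abs F W ω) fun i hi => f4 i (le_trans hj2 hi)).trans ?_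
        have h5 : C₁ * ((r * 2 + 1) * K * 2 ^ Q) = ((C₁ * (r * 2 + 1)) * K) * 2 ^ Q := by ring
        rw [h5]
        exact mul_le_mul_of_nonneg_right
          (hKK _ (mul_le_mul_of_nonneg_right hCd hK0)) h2Q.le
      · have hj1 : j = 1 := by omega
        rw [hj1, Function.iterate_one]
        refine f3.trans (mul_le_mul_of_nonneg_right (hKK _ ?_) h2Q.le)
        rw [mul_comm]
        exact mul_le_mul_of_nonneg_right hCr hK0
    nlinarith [s1, s2, hc1]
  -- the errors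
  have hCl : (r * (D + 3) + 1) * lg ≤ δ' * q * J := by
    refine le_trans ?_ hK
    rw [← hlg]
    exact mul_le_mul_of_nonneg_right hCa hlg0
  have hδq : δ' * q * J ≤ δ * q * J :=
    mul_le_mul_of_nonneg_right (mul_le_mul_of_nonneg_right hδδ hq.le) hJr
  have hcc : CH p cs Y ≤ δ' * q * J := by
    refine hc1.trans (le_trans ?_ hCl)
    linarith
  have hfin := HJ J hJ0 F A hA R (fun s => cx F W r D c gp SV SE SG s) Y
    { deg := hRdeg
      tim := by
        rw [← hp]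
        linarith
      key := fun ω ω' hω hω' e => H.TZ ω ω' hω hω' e
      ctx := by
        rw [← hp, ← hW]
        have := hcc
        rw [hcs] at this
        linarith
      hgt := by
        rw [← hp, ← hW]
        linarith
      nat := fun j _ hj => by
        rw [← hp, ← hW, ← hE]
        have := hjk j hj
        linarith }
    (fun B hB hBc i j hij hj => by
      have h1 := hrow B hB hBc i j hij hj
      have e : ∀ ω, pj F R W 0 ω = σ * (hL F W r D c gp SV SE SG A (slam F W ω)).eval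
          (uw F W ω) := fun ω => by
        unfold pj
        rw [hRe, Function.iterate_zero, id]
        dsimp only
        rw [Polynomial.eval_mul, Polynomial.eval_C]
      rw [← hW]
      simp only [e]
      refine h1.trans (mul_le_mul_of_nonneg_right ?_ hJr)
      have := mul_le_mul_of_nonneg_right hδδ hq.le
      linarith)
  rw [← hp, ← hW] at hfin
  -- the number from the coefficient
  obtain ⟨Xf, hXf⟩ : ∃ Xf : F.Ω → (Fin (D + 1 + 1) → ℤ) × (Fin (D + 1 + 1) → ℤ), Xf = fun ω =>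
      (fun j : Fin (D + 1 + 1) => ⌊pj F R W j ω / 2 ^ (ε / 4 * q * J)⌋,
        fun j : Fin (D + 1 + 1) => ⌊(R (slam F W ω)).coeff j / 2 ^ (ε / 4 * q * J)⌋) := ⟨_, rfl⟩
  rw [← hXf] at hfin
  obtain ⟨G, hG⟩ : ∃ G : ℝ, G = 2 ^ (ε / 4 * q * J) := ⟨_, rfl⟩
  have hG0 : 0 < G := by
    rw [hG]
    exact Real.rpow_pos_of_pos (by norm_num) _
  have hG1 : 1 ≤ G := by
    rw [hG]
    exact Real.one_le_rpow (by norm_num) (by positivity)
  have s1 := CH_step h0 (fun ω => (cx F W r D c gp SV SE SG (slam F W ω),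
        ⌊σ * nb F W r D c gp SV SE SG A (slam F W ω)⌋)) (fun ω => (Xf ω, cs ω)) Y
  have s3 := CH_subadd h0 Xf cs Y
  have s2 : CH p (fun ω => (cx F W r D c gp SV SE SG (slam F W ω),
        ⌊σ * nb F W r D c gp SV SE SG A (slam F W ω)⌋)) (fun ω => ((Xf ω, cs ω), Y ω)) ≤
      ε / 4 * q * J + Real.log 9 := by
    have t1 : CH p (fun ω => (cx F W r D c gp SV SE SG (slam F W ω),
        ⌊σ * nb F W r D c gp SV SE SG A (slam F W ω)⌋)) (fun ω => ((Xf ω, cs ω), Y ω)) ≤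
        CH p (fun ω => ⌊σ * nb F W r D c gp SV SE SG A (slam F W ω)⌋)
          (fun ω => ((Xf ω, cs ω), Y ω)) := by
      refine CH_mono_left h0 fun ω ω' _ _ e => ?_
      simp only [Prod.mk.injEq] at e ⊢
      refine ⟨?_, e.1⟩
      have := e.2.1.2
      rw [hcs] at this
      exact this
    refine t1.trans ?_
    have t2 : CH p (fun ω => ⌊σ * nb F W r D c gp SV SE SG A (slam F W ω)⌋)
        (fun ω => ((Xf ω, cs ω), Y ω)) ≤ Real.log (2 * ((⌈G⌉₊ + 1 : ℕ) : ℝ) + 1) := by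
      refine CH_pair hpl _ _ fun ω ω' hω hω' e => ?_
      simp only [Prod.mk.injEq] at e
      obtain ⟨⟨e1, e2⟩, -⟩ := e
      rw [hXf] at e1
      rw [hcs] at e2
      have e3 := (Prod.ext_iff.mp e1).2
      have e4 := congrFun e3 ⟨2, by omega⟩
      dsimp only at e4
      obtain ⟨κ, hκ⟩ := nb_coeff F W r D c gp SV SE SG σ (hpA ω hω)
      have k2 := hκ ω rfl
      have k3 := hκ ω' e2.symm
      have k4 := of_floor_div (a := (R (slam F W ω)).coeff 2) (b := (R (slam F W ω')).coeff 2)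
        hG0 (by rw [hG]; exact e4)
      rw [hRe] at k4
      dsimp only at k4
      rw [k2, k3] at k4
      refine floor_sub_le ?_
      have e5 : σ * nb F W r D c gp SV SE SG A (slam F W ω) -
          σ * nb F W r D c gp SV SE SG A (slam F W ω') =
          -(-(σ * nb F W r D c gp SV SE SG A (slam F W ω)) + κ -
          (-(σ * nb F W r D c gp SV SE SG A (slam F W ω')) + κ)) := by ring
      rw [e5, abs_neg]
      exact k4.trans (Nat.le_ceil G)
    refine t2.trans ?_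
    have t3 : (⌈G⌉₊ : ℝ) ≤ G + 1 := (Nat.ceil_lt_add_one hG0.le).le
    have t4 : 2 * ((⌈G⌉₊ + 1 : ℕ) : ℝ) + 1 ≤ 9 * G := by
      push_cast
      linarith
    refine (Real.log_le_log (by positivity) t4).trans ?_
    rw [Real.log_mul (by norm_num) hG0.ne', hG, Real.log_rpow (by norm_num), add_comm]
    have hl2 : Real.log 2 ≤ 1 := by
      have := Real.log_two_lt_d9
      linarith
    have hx : 0 ≤ ε / 4 * q * J := by positivity
    have := mul_le_of_le_one_right hx hl2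
    linarith
  have hl9 : Real.log 9 ≤ ε / 4 * q * J := by
    have h1 : Real.log 9 / (ε / 4 * q) ≤ J := hJ₁.trans hJ1
    rw [div_le_iff₀ (by positivity)] at h1
    linarith
  have hδε' : δ' * q * J ≤ ε / 4 * q * J :=
    mul_le_mul_of_nonneg_right (mul_le_mul_of_nonneg_right hδε hq.le) hJr
  linarith [s1, s2, s3, hfin, hl9, hcc]

end Pool.D2H
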